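import Pool.Agent.Helper67.DO.StmtsD

/-!
# D12: (M2) for the smoothed cochains and the prism homotopy
-/

namespace Pool.Agent.Helper67.DO

open scoped BigOperators Real
open MeasureTheory

noncomputable section

section measure

variable {X : Type} [MeasurableSpace X] (μ : Measure X) [IsProbabilityMeasure μ]

theorem d12_mpS (m : ℕ) (i : Fin (m + 1)) :
    MeasurePreserving (fun (ω : Fin (m + 1) → X) => ((ω i, fun k : Fin m => ω (i.succAbove k)) : X × (Fin m → X)))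
      (Measure.pi fun _ => μ) (μ.prod (Measure.pi fun _ => μ)) := by
  have h := measurePreserving_piFinSuccAbove (fun _ : Fin (m + 1) => μ) i
  exact h

theorem d12_mp (m : ℕ) (i : Fin (m + 1)) :
    MeasurePreserving (fun (ω : Fin (m + 1) → X) (k : Fin m) => ω (i.succAbove k))
      (Measure.pi fun _ => μ) (Measure.pi fun _ => μ) :=
  (measurePreserving_snd (μ := μ) (ν := Measure.pi fun _ : Fin m => μ)).comp (d12_mpS μ m i)

theorem d12_mpE (m : ℕ) (i : Fin (m + 1)) :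
    MeasurePreserving (fun (ω : Fin (m + 1) → X) => ω i) (Measure.pi fun _ => μ) μ :=
  (measurePreserving_fst (μ := μ) (ν := Measure.pi fun _ : Fin m => μ)).comp (d12_mpS μ m i)

theorem d12_integral (m : ℕ) (i : Fin (m + 1)) (f : (Fin m → X) → ℂ)
    (hf : Integrable f (Measure.pi fun _ => μ)) :
    Integrable (fun ω : Fin (m + 1) → X => f (fun k => ω (i.succAbove k))) (Measure.pi fun _ => μ) ∧
    ∫ ω : Fin (m + 1) → X, f (fun k => ω (i.succAbove k)) ∂(Measure.pi fun _ => μ)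
      = ∫ ω, f ω ∂(Measure.pi fun _ => μ) := by
  have h := d12_mp μ m i
  refine ⟨h.integrable_comp_of_integrable hf, ?_⟩
  have h1 : AEStronglyMeasurable f (Measure.map (fun (ω : Fin (m + 1) → X) (k : Fin m) => ω (i.succAbove k))
      (Measure.pi fun _ => μ)) := by
    rw [h.map_eq]; exact hf.aestronglyMeasurable
  have h2 := integral_map h.measurable.aemeasurable h1
  rw [h.map_eq] at h2
  exact h2.symm

theorem d12_integral2 (m : ℕ) (i : Fin (m + 1)) (f : (Fin m → X) → ℂ) (g : X → ℂ)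
    (hf : Integrable f (Measure.pi fun _ => μ)) (hg : Integrable g μ) :
    Integrable (fun ω : Fin (m + 1) → X => g (ω i) * f (fun k => ω (i.succAbove k))) (Measure.pi fun _ => μ) ∧
    ∫ ω : Fin (m + 1) → X, g (ω i) * f (fun k => ω (i.succAbove k)) ∂(Measure.pi fun _ => μ)
      = (∫ x, g x ∂μ) * ∫ ω, f ω ∂(Measure.pi fun _ => μ) := by
  have h := d12_mpS μ m i
  have hi : Integrable (fun z : X × (Fin m → X) => g z.1 * f z.2) (μ.prod (Measure.pi fun _ => μ)) :=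
    hg.mul_prod hf
  refine ⟨h.integrable_comp_of_integrable hi, ?_⟩
  have h1 : AEStronglyMeasurable (fun z : X × (Fin m → X) => g z.1 * f z.2)
      (Measure.map (fun (ω : Fin (m + 1) → X) => ((ω i, fun k : Fin m => ω (i.succAbove k)) : X × (Fin m → X)))
      (Measure.pi fun _ => μ)) := by
    rw [h.map_eq]; exact hi.aestronglyMeasurable
  have h2 := integral_map h.measurable.aemeasurable h1
  rw [h.map_eq, integral_prod_mul] at h2
  exact h2.symm

end measure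

/-- the sequence `(g_{ω_0} y_0, .., g_{ω_{m-1}} y_{m-1}, y_m, ..)` -/
def d12_G {Ω : Type} (η : Ω → ℂ → ℂ) (m : ℕ) (ω : Fin m → Ω × ℝ) (y : Sq) : Sq :=
  fun k => if h : k < m then gg η (ω ⟨k, h⟩) (y k) else y k

theorem d12_rm {Ω : Type} (η : Ω → ℂ → ℂ) (m : ℕ) (ω : Fin (m + 1) → Ω × ℝ) (y : Sq) (i : Fin (m + 1)) :
    rm i (d12_G η (m + 1) ω y) = d12_G η m (fun k => ω (i.succAbove k)) (rm i y) := by
  funext k
  have hi := i.2
  unfold rm d12_G
  dsimp only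
  by_cases hk : k < (i : ℕ)
  · have h1 : k < m + 1 := by omega
    have h2 : k < m := by omega
    rw [if_pos hk, dif_pos h1, dif_pos h2, if_pos hk]
    congr 2
    apply Fin.ext
    rw [Fin.succAbove_of_castSucc_lt _ _ (by rw [Fin.lt_def]; simpa using hk)]
    simp
  · rw [if_neg hk]
    by_cases h2 : k < m
    · have h1 : k + 1 < m + 1 := by omega
      rw [dif_pos h1, dif_pos h2, if_neg hk]
      congr 2
      apply Fin.ext
      rw [Fin.succAbove_of_le_castSucc _ _ (by rw [Fin.le_def]; simpa using hk)]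
      simp
    · have h1 : ¬ k + 1 < m + 1 := by omega
      rw [dif_neg h1, dif_neg h2, if_neg hk]

instance d12_probI : IsProbabilityMeasure (volume.restrict (Set.Icc (0 : ℝ) 1)) where
  measure_univ := by simp

instance d12_probPP {Ω : Type} [MeasurableSpace Ω] (P : Measure Ω) [IsProbabilityMeasure P] :
    IsProbabilityMeasure (PP P) := by
  unfold PP
  infer_instance

theorem d12_hb {n : ℕ} {ρ s M s0 K : ℝ} (hI : Inv n ρ s M) (hs : s0 < s) {Φ v : ℝ → ℝ} (hΦ : Φ ∈ AA n)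
    (hv : v ∈ VV n K) (c : ℝ) : HB s0 (fun z => pull ρ Φ v (z - c)) := by
  have hρ : 0 < ρ := hI.pos.1.trans_le hI.pos.2.1
  have hsub : St ρ ⊆ St (2 * ρ) := by
    intro z hz
    have hz' : |z.im| < ρ := hz
    change |z.im| < 2 * ρ
    linarith
  have hst : ∀ z ∈ St s0, z - (c : ℂ) ∈ St s := by
    intro z hz
    have hz' : |z.im| < s0 := hz
    change |(z - (c : ℂ)).im| < s
    simp only [Complex.sub_im, Complex.ofReal_im, sub_zero]
    linarith
  refine ⟨?_, ?_, ?_⟩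
  · unfold pull
    have h1 : DifferentiableOn ℂ (fun z : ℂ => z - (c : ℂ)) (St s0) :=
      (differentiable_id.sub_const _).differentiableOn
    have h2 : DifferentiableOn ℂ (fun z : ℂ => cinv ρ Φ (z - c)) (St s0) := (hI.invhol Φ hΦ).comp h1 hst
    exact (hI.vhol K v hv).comp h2 (fun z hz => hsub (hI.inv Φ hΦ _ (hst z hz)).1)
  · intro z hz
    have h1 := hI.inv Φ hΦ _ (hst z hz)
    have e : z + 1 - (c : ℂ) = (z - c) + 1 := by ring
    unfold pull
    rw [e, h1.2.2, (hI.vbd K v hv _ (hsub h1.1)).1]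
  · exact ⟨M * K, fun z hz => (hI.vbd K v hv _ (hsub (hI.inv Φ hΦ _ (hst z hz)).1)).2⟩

theorem d12_hbB {n : ℕ} {ρ s M s0 K : ℝ} (hI : Inv n ρ s M) (hs : s0 < s) {Φ v : ℝ → ℝ} (hΦ : Φ ∈ AA n)
    (hv : v ∈ VV n K) (c : ℝ) : ∀ z ∈ St s0, ‖pull ρ Φ v (z - c)‖ ≤ M * K := by
  have hρ : 0 < ρ := hI.pos.1.trans_le hI.pos.2.1
  intro z hz
  have hz' : |z.im| < s0 := hz
  have h1 : z - (c : ℂ) ∈ St s := by
    change |(z - (c : ℂ)).im| < s
    simp only [Complex.sub_im, Complex.ofReal_im, sub_zero]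
    linarith
  have h2 : |(cinv ρ Φ (z - c)).im| < ρ := (hI.inv Φ hΦ _ h1).1
  refine (hI.vbd K v hv _ ?_).2
  change |(cinv ρ Φ (z - c)).im| < 2 * ρ
  linarith

theorem d12_Ew {s0 : ℝ} {Ω : Type} [TopologicalSpace Ω] [MeasurableSpace Ω] {P : Measure Ω}
    [IsProbabilityMeasure P] {η : Ω → ℂ → ℂ} {w : Ω → (ℂ → ℂ) → ℂ} {Cw : ℝ} (hS : SMD s0 Ω P η w Cw)
    (κ : ℂ → ℂ) (hκ : HB s0 κ) : ∫ ω, w ω κ ∂P = 0 := by
  have h := hS.ibp κ hκ 0 (fun _ => 0) (fun _ => 0)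
  simp only [Finset.univ_eq_empty, Finset.sum_empty, mul_zero, Complex.exp_zero, mul_one, one_mul,
    integral_zero] at h
  exact h.symm

theorem d12_Eww {n : ℕ} {ρ s M s0 K : ℝ} {Ω : Type} [TopologicalSpace Ω] [MeasurableSpace Ω] {P : Measure Ω}
    [IsProbabilityMeasure P] {η : Ω → ℂ → ℂ} {w : Ω → (ℂ → ℂ) → ℂ} {Cw : ℝ} (hI : Inv n ρ s M) (hs : s0 < s)
    (hS : SMD s0 Ω P η w Cw) {Φ v : ℝ → ℝ} (hΦ : Φ ∈ AA n) (hv : v ∈ VV n K) :
    Integrable (fun x : Ω × ℝ => ww w x (pull ρ Φ v)) (PP P) ∧ ∫ x, ww w x (pull ρ Φ v) ∂(PP P) = 0 := by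
  have h0 : HB s0 (pull ρ Φ v) := by
    have := d12_hb hI hs hΦ hv 0
    simpa using this
  have hm : Measurable (fun x : Ω × ℝ => ww w x (pull ρ Φ v)) := hS.meas _ h0
  have hi : Integrable (fun x : Ω × ℝ => ww w x (pull ρ Φ v)) (PP P) := by
    unfold PP
    rw [integrable_prod_iff' hm.aestronglyMeasurable]
    refine ⟨Filter.Eventually.of_forall fun c => hS.int _ (d12_hb hI hs hΦ hv c), ?_⟩
    have hm2 : StronglyMeasurable (fun c : ℝ => ∫ ω, ‖ww w (ω, c) (pull ρ Φ v)‖ ∂P) :=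
      StronglyMeasurable.integral_prod_left (f := fun (ω : Ω) (c : ℝ) => ‖ww w (ω, c) (pull ρ Φ v)‖)
        (hm.norm.stronglyMeasurable)
    refine Integrable.of_bound hm2.aestronglyMeasurable (Cw * (M * K)) (Filter.Eventually.of_forall fun c => ?_)
    rw [Real.norm_of_nonneg (integral_nonneg fun _ => norm_nonneg _)]
    exact hS.bdd _ _ (d12_hb hI hs hΦ hv c) (d12_hbB hI hs hΦ hv c)
  refine ⟨hi, ?_⟩
  have hi' := hi
  unfold PP at hi' ⊢
  rw [integral_prod_symm _ hi']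
  have : ∀ c : ℝ, ∫ ω, ww w (ω, c) (pull ρ Φ v) ∂P = 0 := fun c => d12_Ew hS _ (d12_hb hI hs hΦ hv c)
  simp only [this, integral_zero]

theorem d12_sval {m : ℕ} (i : Fin (m + 1)) (k : Fin m) :
    ((i.succAbove k : Fin (m + 1)) : ℕ) = if (k : ℕ) < (i : ℕ) then (k : ℕ) else (k : ℕ) + 1 := by
  by_cases hk : (k : ℕ) < (i : ℕ)
  · rw [if_pos hk, Fin.succAbove_of_castSucc_lt _ _ (by rw [Fin.lt_def]; simpa using hk)]
    simp
  · rw [if_neg hk, Fin.succAbove_of_le_castSucc _ _ (by rw [Fin.le_def]; simpa using hk)]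
    simp

theorem d12_rms {m : ℕ} (i : Fin (m + 1)) (k : Fin m) (y : Sq) :
    rm (i : ℕ) y (k : ℕ) = y ((i.succAbove k : Fin (m + 1)) : ℕ) := by
  rw [d12_sval]
  unfold rm
  split_ifs <;> rfl

/-- the weight -/
def d12_W {Ω : Type} (w : Ω → (ℂ → ℂ) → ℂ) (ρ : ℝ) (m j : ℕ) (y v : Sq) (ω : Fin m → Ω × ℝ) : ℂ :=
  ∏ b : Fin m, (if (b : ℕ) < j then ww w (ω b) (pull ρ (y b) (v b)) else 1)

theorem d12_Wge {Ω : Type} (w : Ω → (ℂ → ℂ) → ℂ) (ρ : ℝ) (m j : ℕ) (y v : Sq) (ω : Fin (m + 1) → Ω × ℝ)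
    (i : Fin (m + 1)) (hj : j ≤ (i : ℕ)) :
    d12_W w ρ (m + 1) j y v ω = d12_W w ρ m j (rm i y) v (fun k => ω (i.succAbove k)) := by
  unfold d12_W
  rw [Fin.prod_univ_succAbove _ i, if_neg (by omega), one_mul]
  refine Finset.prod_congr rfl fun k _ => ?_
  rw [d12_rms]
  by_cases hk : (k : ℕ) < j
  · have h1 : ((i.succAbove k : Fin (m + 1)) : ℕ) = k := by
      rw [d12_sval, if_pos (by omega)]
    rw [if_pos (by rw [h1]; exact hk), if_pos hk, h1]
  · have h1 : ¬ ((i.succAbove k : Fin (m + 1)) : ℕ) < j := by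
      rw [d12_sval]
      split_ifs <;> omega
    rw [if_neg h1, if_neg hk]

theorem d12_Wlt {Ω : Type} (w : Ω → (ℂ → ℂ) → ℂ) (ρ : ℝ) (m j : ℕ) (y v : Sq) (ω : Fin (m + 1) → Ω × ℝ)
    (i : Fin (m + 1)) (hj : (i : ℕ) < j) :
    d12_W w ρ (m + 1) j y v ω = ww w (ω i) (pull ρ (y i) (v i)) *
      d12_W w ρ m (j - 1) (rm i y) (rm i v) (fun k => ω (i.succAbove k)) := by
  unfold d12_W
  rw [Fin.prod_univ_succAbove _ i, if_pos hj]
  congr 1
  refine Finset.prod_congr rfl fun k _ => ?_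
  rw [d12_rms, d12_rms]
  have h1 : ((i.succAbove k : Fin (m + 1)) : ℕ) < j ↔ (k : ℕ) < j - 1 := by
    rw [d12_sval]
    split_ifs <;> omega
  simp only [h1]

theorem d12_rmAA {n i : ℕ} {y : Sq} (h : ∀ k, y k ∈ AA n) : ∀ k, rm i y k ∈ AA n := by
  intro k
  unfold rm
  split_ifs
  · exact h _
  · exact h _

theorem d12_rmVV {n i : ℕ} {K : ℝ} {y : Sq} (h : ∀ k, y k ∈ VV n K) : ∀ k, rm i y k ∈ VV n K := by
  intro k
  unfold rm
  split_ifs
  · exact h _
  · exact h _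

theorem d12_GAA {n n' : ℕ} {s0 : ℝ} {Ω : Type} {η : Ω → ℂ → ℂ} (hg : Gd n n' s0) (ha : ∀ ω, Adm s0 (η ω))
    (hsub : AA n ⊆ AA n') (m : ℕ) (ω : Fin m → Ω × ℝ) {y : Sq} (h : ∀ k, y k ∈ AA n) :
    ∀ k, d12_G η m ω y k ∈ AA n' := by
  intro k
  unfold d12_G
  split_ifs
  · exact hg.2.2 _ (ha _) _ (h k) _
  · exact hsub (h k)

theorem d12_partA {n n' p : ℕ} {ρ s M s0 : ℝ} {Ω : Type} [TopologicalSpace Ω] [MeasurableSpace Ω]
    {P : Measure Ω} [IsProbabilityMeasure P] {η : Ω → ℂ → ℂ} {w : Ω → (ℂ → ℂ) → ℂ} {Cw : ℝ}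
    (hc : Ctx n n' ρ s M s0 Ω P η w Cw) (hsub : AA n ⊆ AA n') {C : Sq → ℂ}
    (hCc : CocL n' (p + 1) C)
    (hint : ∀ j ≤ p + 1, ∀ (y v : Sq) (K : ℝ), (∀ k, y k ∈ AA n) → (∀ b, v b ∈ VV n K) →
      Integrable (fun ω : Fin (p + 2) → Ω × ℝ => C (d12_G η (p + 2) ω y) * d12_W w ρ (p + 2) j y v ω)
        (Measure.pi fun _ => PP P))
    (j : ℕ) (hj : j ≤ p + 1) (y v : Sq) (K : ℝ) (hy : ∀ k, y k ∈ AA n) (hv : ∀ b, v b ∈ VV n K) :
    ∑ i ∈ Finset.Icc j (p + 2), (-1 : ℂ) ^ i * CJ P η w ρ (p + 1) C j (rm i y) v = 0 := by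
  have hterm : ∀ i : Fin (p + 3),
      Integrable (fun ω : Fin (p + 3) → Ω × ℝ => C (rm i (d12_G η (p + 3) ω y)) * d12_W w ρ (p + 3) j y v ω)
        (Measure.pi fun _ => PP P) ∧
      ∫ ω : Fin (p + 3) → Ω × ℝ, C (rm i (d12_G η (p + 3) ω y)) * d12_W w ρ (p + 3) j y v ω
        ∂(Measure.pi fun _ => PP P) = if j ≤ (i : ℕ) then CJ P η w ρ (p + 1) C j (rm i y) v else 0 := by
    intro i
    by_cases hi : j ≤ (i : ℕ)
    · rw [if_pos hi]
      have h1 := d12_integral (PP P) (p + 2) i _ (hint j hj (rm i y) v K (d12_rmAA hy) hv)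
      have h2 : (fun ω : Fin (p + 3) → Ω × ℝ => C (rm i (d12_G η (p + 3) ω y)) * d12_W w ρ (p + 3) j y v ω)
          = fun ω : Fin (p + 3) → Ω × ℝ => C (d12_G η (p + 2) (fun k => ω (i.succAbove k)) (rm i y)) *
            d12_W w ρ (p + 2) j (rm i y) v (fun k => ω (i.succAbove k)) := by
        funext ω
        rw [d12_rm, d12_Wge w ρ (p + 2) j y v ω i hi]
      rw [h2]
      exact h1
    · rw [if_neg hi]
      have hi' : (i : ℕ) < j := by omega
      obtain ⟨he, he0⟩ := d12_Eww hc.inv hc.s0lt hc.smd (hy i) (hv i)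
      have h1 := d12_integral2 (PP P) (p + 2) i _ _
        (hint (j - 1) (by omega) (rm i y) (rm i v) K (d12_rmAA hy) (d12_rmVV hv)) he
      have h2 : (fun ω : Fin (p + 3) → Ω × ℝ => C (rm i (d12_G η (p + 3) ω y)) * d12_W w ρ (p + 3) j y v ω)
          = fun ω : Fin (p + 3) → Ω × ℝ => ww w (ω i) (pull ρ (y i) (v i)) *
            (C (d12_G η (p + 2) (fun k => ω (i.succAbove k)) (rm i y)) *
            d12_W w ρ (p + 2) (j - 1) (rm i y) (rm i v) (fun k => ω (i.succAbove k))) := by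
        funext ω
        rw [d12_rm, d12_Wlt w ρ (p + 2) j y v ω i hi']
        ring
      rw [h2]
      refine ⟨h1.1, ?_⟩
      rw [h1.2, he0, zero_mul]
  have hsum : ∀ ω : Fin (p + 3) → Ω × ℝ, ∑ i : Fin (p + 3), (-1 : ℂ) ^ (i : ℕ) *
      (C (rm i (d12_G η (p + 3) ω y)) * d12_W w ρ (p + 3) j y v ω) = 0 := by
    intro ω
    have h1 := hCc (d12_G η (p + 3) ω y) (d12_GAA hc.good hc.smd.adm hsub _ ω hy)
    unfold dlt at h1
    rw [Finset.sum_range] at h1
    have h2 : ∑ i : Fin (p + 3), (-1 : ℂ) ^ (i : ℕ) *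
      (C (rm i (d12_G η (p + 3) ω y)) * d12_W w ρ (p + 3) j y v ω)
      = (∑ i : Fin (p + 3), (-1 : ℂ) ^ (i : ℕ) * C (rm i (d12_G η (p + 3) ω y))) * d12_W w ρ (p + 3) j y v ω := by
      rw [Finset.sum_mul]
      exact Finset.sum_congr rfl fun i _ => by ring
    rw [h2]
    have h3 : ∑ i : Fin (p + 3), (-1 : ℂ) ^ (i : ℕ) * C (rm i (d12_G η (p + 3) ω y)) = 0 := h1
    rw [h3, zero_mul]
  have h4 : ∫ ω : Fin (p + 3) → Ω × ℝ, ∑ i : Fin (p + 3), (-1 : ℂ) ^ (i : ℕ) *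
      (C (rm i (d12_G η (p + 3) ω y)) * d12_W w ρ (p + 3) j y v ω) ∂(Measure.pi fun _ => PP P) = 0 := by
    simp only [hsum, integral_zero]
  rw [integral_finsetSum _ (fun i _ => (hterm i).1.const_mul _)] at h4
  simp only [integral_const_mul, (hterm _).2] at h4
  have h5 : ∑ i ∈ Finset.Icc j (p + 2), (-1 : ℂ) ^ i * CJ P η w ρ (p + 1) C j (rm i y) v
      = ∑ i ∈ Finset.range (p + 3), (-1 : ℂ) ^ i * (if j ≤ i then CJ P η w ρ (p + 1) C j (rm i y) v else 0) := by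
    have h6 : Finset.Icc j (p + 2) = (Finset.range (p + 3)).filter (fun i => j ≤ i) := by
      ext i
      simp only [Finset.mem_Icc, Finset.mem_filter, Finset.mem_range]
      omega
    rw [h6, Finset.sum_filter]
    refine Finset.sum_congr rfl fun i _ => ?_
    split_ifs <;> simp
  rw [h5, Finset.sum_range]
  exact h4

/-! ### the prism -/

/-- `(G_0..G_l, y_l, y_{l+1}..)` -/
def d12_pr (l : ℕ) (G y : Sq) : Sq := fun k => if k ≤ l then G k else y (k - 1)

/-- `(G_0..G_{l-1}, y_l, ..)` -/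
def d12_mx (l : ℕ) (G y : Sq) : Sq := fun k => if k < l then G k else y k

theorem d12_pr1 (i j : ℕ) (G y : Sq) (h : i < j) :
    rm i (d12_pr j G y) = d12_pr (j - 1) (rm i G) (rm i y) := by
  funext k
  simp only [rm, d12_pr]
  by_cases h1 : k < i
  · rw [if_pos h1, if_pos h1, if_pos (by omega), if_pos (by omega)]
  · rw [if_neg h1, if_neg h1]
    by_cases h2 : k + 1 ≤ j
    · rw [if_pos h2, if_pos (by omega)]
    · rw [if_neg h2, if_neg (by omega), if_neg (by omega)]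
      congr 1
      omega

theorem d12_pr2 (j : ℕ) (G y : Sq) : rm j (d12_pr j G y) = d12_mx j G y := by
  funext k
  simp only [rm, d12_pr, d12_mx]
  by_cases h1 : k < j
  · rw [if_pos h1, if_pos h1, if_pos (by omega)]
  · rw [if_neg h1, if_neg h1, if_neg (by omega)]
    congr 1

theorem d12_pr3 (j : ℕ) (G y : Sq) : rm (j + 1) (d12_pr j G y) = d12_mx (j + 1) G y := by
  funext k
  simp only [rm, d12_pr, d12_mx]
  by_cases h1 : k < j + 1
  · rw [if_pos h1, if_pos h1, if_pos (by omega)]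
  · rw [if_neg h1, if_neg h1, if_neg (by omega)]
    congr 1

theorem d12_pr4 (i j : ℕ) (G y : Sq) (h : j < i) :
    rm (i + 1) (d12_pr j G y) = d12_pr j (rm i G) (rm i y) := by
  funext k
  simp only [rm, d12_pr]
  by_cases h1 : k ≤ j
  · rw [if_pos (by omega), if_pos h1, if_pos h1, if_pos (by omega)]
  · rw [if_neg h1, if_neg h1]
    by_cases h2 : k < i + 1
    · rw [if_pos h2, if_pos (by omega)]
    · rw [if_neg h2, if_neg (by omega), if_neg (by omega)]
      congr 1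
      omega

theorem d12_sum1 (f : ℕ → ℂ) (j d : ℕ) :
    ∑ i ∈ Finset.range (j + d + 2), f i = (∑ i ∈ Finset.range (j + d + 1), (if i < j then f i else 0)) +
      (∑ i ∈ Finset.range (j + d + 1), (if j < i then f (i + 1) else 0)) + f j + f (j + 1) := by
  induction d with
  | zero =>
    rw [Finset.sum_range_succ, Finset.sum_range_succ]
    have h1 : ∑ i ∈ Finset.range (j + 0 + 1), (if i < j then f i else 0) = ∑ i ∈ Finset.range j, f i := by
      rw [Finset.sum_range_succ, if_neg (by omega), add_zero]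
      exact Finset.sum_congr rfl fun i hi => if_pos (Finset.mem_range.1 hi)
    have h2 : ∑ i ∈ Finset.range (j + 0 + 1), (if j < i then f (i + 1) else 0) = 0 :=
      Finset.sum_eq_zero fun i hi => if_neg (by have := Finset.mem_range.1 hi; omega)
    rw [h1, h2]
    simp only [add_zero]
  | succ d ih =>
    have e : j + (d + 1) + 2 = (j + d + 2) + 1 := by ring
    have e2 : j + (d + 1) + 1 = (j + d + 1) + 1 := by ring
    rw [e, e2, Finset.sum_range_succ, ih, Finset.sum_range_succ _ (j + d + 1), Finset.sum_range_succ _ (j + d + 1),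
      if_neg (by omega), if_pos (by omega)]
    ring

theorem d12_alg {n' p : ℕ} {C : Sq → ℂ} (hC : LC n' (p + 1) C) (hCc : CocL n' (p + 1) C) (G y : Sq)
    (hG : ∀ k, G k ∈ AA n') (hy : ∀ k, y k ∈ AA n') :
    C y - C G = ∑ i ∈ Finset.range (p + 2), (-1 : ℂ) ^ i *
      ∑ l ∈ Finset.range (p + 1), (-1 : ℂ) ^ l * C (d12_pr l (rm i G) (rm i y)) := by
  have h0 : ∀ j ∈ Finset.range (p + 2), (-1 : ℂ) ^ j *
      ((∑ i ∈ Finset.range (p + 2), (if i < j then (-1 : ℂ) ^ i * C (rm i (d12_pr j G y)) else 0)) +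
      (∑ i ∈ Finset.range (p + 2), (if j < i then (-1 : ℂ) ^ (i + 1) * C (rm (i + 1) (d12_pr j G y)) else 0)) +
      (-1 : ℂ) ^ j * C (d12_mx j G y) + (-1 : ℂ) ^ (j + 1) * C (d12_mx (j + 1) G y)) = 0 := by
    intro j hj
    have hj' := Finset.mem_range.1 hj
    have h1 := hCc (d12_pr j G y) (fun k => by
      unfold d12_pr
      split_ifs
      · exact hG _
      · exact hy _)
    unfold dlt at h1
    have h2 := d12_sum1 (fun i => (-1 : ℂ) ^ i * C (rm i (d12_pr j G y))) j (p + 1 - j)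
    have e : j + (p + 1 - j) = p + 1 := by omega
    rw [e] at h2
    rw [h2] at h1
    rw [d12_pr2, d12_pr3] at h1
    rw [h1, mul_zero]
  have h1 := Finset.sum_eq_zero h0
  have hpm : ∀ j : ℕ, (-1 : ℂ) ^ j * (-1 : ℂ) ^ j = 1 := by
    intro j
    rw [← mul_pow]; simp
  have h2 : ∀ j ∈ Finset.range (p + 2), (-1 : ℂ) ^ j *
      ((∑ i ∈ Finset.range (p + 2), (if i < j then (-1 : ℂ) ^ i * C (rm i (d12_pr j G y)) else 0)) +
      (∑ i ∈ Finset.range (p + 2), (if j < i then (-1 : ℂ) ^ (i + 1) * C (rm (i + 1) (d12_pr j G y)) else 0)) +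
      (-1 : ℂ) ^ j * C (d12_mx j G y) + (-1 : ℂ) ^ (j + 1) * C (d12_mx (j + 1) G y)) =
      (∑ i ∈ Finset.range (p + 2), (if i < j then (-1 : ℂ) ^ (i + j) * C (rm i (d12_pr j G y)) else 0)) +
      (∑ i ∈ Finset.range (p + 2), (if j < i then (-1 : ℂ) ^ (i + 1 + j) * C (rm (i + 1) (d12_pr j G y)) else 0)) +
      (C (d12_mx j G y) - C (d12_mx (j + 1) G y)) := by
    intro j _
    rw [mul_add, mul_add, mul_add, Finset.mul_sum, Finset.mul_sum]
    have e1 : ∀ i, (-1 : ℂ) ^ j * (if i < j then (-1 : ℂ) ^ i * C (rm i (d12_pr j G y)) else 0)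
        = if i < j then (-1 : ℂ) ^ (i + j) * C (rm i (d12_pr j G y)) else 0 := by
      intro i
      split_ifs
      · rw [pow_add]; ring
      · rw [mul_zero]
    have e2 : ∀ i, (-1 : ℂ) ^ j * (if j < i then (-1 : ℂ) ^ (i + 1) * C (rm (i + 1) (d12_pr j G y)) else 0)
        = if j < i then (-1 : ℂ) ^ (i + 1 + j) * C (rm (i + 1) (d12_pr j G y)) else 0 := by
      intro i
      split_ifs
      · rw [pow_add _ (i + 1) j]; ring
      · rw [mul_zero]
    simp only [e1, e2]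
    rw [← mul_assoc, hpm, one_mul, pow_succ]
    have : (-1 : ℂ) ^ j * ((-1 : ℂ) ^ j * -1 * C (d12_mx (j + 1) G y)) =
        ((-1 : ℂ) ^ j * (-1 : ℂ) ^ j) * (- C (d12_mx (j + 1) G y)) := by ring
    rw [this, hpm]
    ring
  rw [Finset.sum_congr rfl h2, Finset.sum_add_distrib, Finset.sum_add_distrib,
    Finset.sum_range_sub' (fun j => C (d12_mx j G y)), Finset.sum_comm,
    Finset.sum_comm (f := fun j i => if j < i then (-1 : ℂ) ^ (i + 1 + j) * C (rm (i + 1) (d12_pr j G y)) else 0)] at h1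
  have h3 : C (d12_mx 0 G y) = C y := by
    congr 1
  have h4 : C (d12_mx (p + 2) G y) = C G := by
    apply hC.dep
    intro k hk
    unfold d12_mx
    rw [if_pos (by omega)]
  rw [h3, h4, ← Finset.sum_add_distrib] at h1
  have h5 : ∀ i ∈ Finset.range (p + 2),
      (∑ j ∈ Finset.range (p + 2), (if i < j then (-1 : ℂ) ^ (i + j) * C (rm i (d12_pr j G y)) else 0)) +
      (∑ j ∈ Finset.range (p + 2), (if j < i then (-1 : ℂ) ^ (i + 1 + j) * C (rm (i + 1) (d12_pr j G y)) else 0))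
      = - ((-1 : ℂ) ^ i * ∑ l ∈ Finset.range (p + 1), (-1 : ℂ) ^ l * C (d12_pr l (rm i G) (rm i y))) := by
    intro i hi
    have hi' := Finset.mem_range.1 hi
    rw [Finset.sum_range_succ' _ (p + 1), Finset.sum_range_succ _ (p + 1), if_neg (by omega), if_neg (by omega),
      add_zero, add_zero, ← Finset.sum_add_distrib, Finset.mul_sum, ← Finset.sum_neg_distrib]
    refine Finset.sum_congr rfl fun l _ => ?_
    by_cases hl : l < i
    · rw [if_neg (by omega), if_pos hl, d12_pr4 i l G y hl, zero_add, pow_add, pow_succ]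
      ring
    · rw [if_pos (by omega), if_neg hl, d12_pr1 i (l + 1) G y (by omega), add_zero, pow_add, pow_succ]
      have : l + 1 - 1 = l := by omega
      rw [this]
      ring
  rw [Finset.sum_congr rfl h5, Finset.sum_neg_distrib] at h1
  have := eq_neg_of_add_eq_zero_right h1
  rw [neg_neg] at this
  exact this

/-! ### estimates for the left factors -/

theorem d12_St_open (s : ℝ) : IsOpen (St s) := by
  have : St s = (fun z : ℂ => |z.im|) ⁻¹' Set.Iio s := rfl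
  rw [this]
  exact isOpen_Iio.preimage (continuous_abs.comp Complex.continuous_im)

theorem d12_St_convex (s : ℝ) : Convex ℝ (St s) := by
  have : St s = Complex.imLm ⁻¹' (Set.Ioo (-s) s) := by
    ext z
    simp [St, abs_lt]
  rw [this]
  exact (convex_Ioo _ _).linear_preimage Complex.imLm

theorem d12_lip {s0 : ℝ} (hs : 0 < s0) {η : ℂ → ℂ} (h : Adm s0 η) (x y : ℝ) :
    |(η x).re - (η y).re| ≤ 2 * |x - y| := by
  have hd : ∀ z ∈ St (s0 / 4), DifferentiableAt ℂ (fun z => η z - z) z := fun z hz =>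
    ((h.hol z hz).differentiableAt ((d12_St_open _).mem_nhds hz)).sub differentiableAt_id
  have hsub : ∀ z ∈ St (s0 / 8), ∀ u ∈ Metric.closedBall z (s0 / 16), u ∈ St (s0 / 4) := by
    intro z hz u hu
    have hz' : |z.im| < s0 / 8 := hz
    have h1 : |(u - z).im| ≤ s0 / 16 := (Complex.abs_im_le_norm _).trans (by simpa [dist_eq_norm] using hu)
    change |u.im| < s0 / 4
    have h2 : u.im = (u - z).im + z.im := by simp
    rw [h2]
    calc |(u - z).im + z.im| ≤ |(u - z).im| + |z.im| := abs_add_le _ _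
      _ < s0 / 4 := by linarith
  have hb : ∀ z ∈ St (s0 / 8), ‖deriv (fun z => η z - z) z‖ ≤ 1 := by
    intro z hz
    have h1 : ‖deriv (fun z => η z - z) z‖ ≤ (s0 / 256) / (s0 / 16) := by
      apply Complex.norm_deriv_le_of_forall_mem_sphere_norm_le (by positivity)
      · refine DifferentiableOn.diffContOnCl ?_
        intro u hu
        have hu' : u ∈ Metric.closedBall z (s0 / 16) := Metric.closure_ball_subset_closedBall hu
        exact (hd u (hsub z hz u hu')).differentiableWithinAt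
      · intro u hu
        exact h.near u (hsub z hz u (Metric.sphere_subset_closedBall hu))
    refine h1.trans ?_
    rw [div_le_one (by positivity)]
    linarith
  have hmem : ∀ x : ℝ, (x : ℂ) ∈ St (s0 / 8) := by
    intro x
    change |((x : ℂ)).im| < s0 / 8
    simp
    exact hs
  have h8 : St (s0 / 8) ⊆ St (s0 / 4) := by
    intro z hz
    have hz' : |z.im| < s0 / 8 := hz
    change |z.im| < s0 / 4
    linarith
  have h1 := (d12_St_convex (s0 / 8)).norm_image_sub_le_of_norm_deriv_le (fun z hz => hd z (h8 hz)) hb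
    (hmem y) (hmem x)
  have h2 : |((η x - x) - (η y - y)).re| ≤ |x - y| := by
    refine (Complex.abs_re_le_norm _).trans (h1.trans ?_)
    rw [one_mul, ← Complex.ofReal_sub, Complex.norm_real, Real.norm_eq_abs]
  simp only [Complex.sub_re, Complex.ofReal_re] at h2
  have h3 : (η x).re - (η y).re = ((η x).re - x - ((η y).re - y)) + (x - y) := by ring
  rw [h3]
  calc |((η x).re - x - ((η y).re - y)) + (x - y)| ≤ |((η x).re - x - ((η y).re - y))| + |x - y| := abs_add_le _ _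
    _ ≤ 2 * |x - y| := by linarith

theorem d12_per1 {s0 : ℝ} (hs : 0 < s0) {η : ℂ → ℂ} (h : Adm s0 η) (x : ℝ) :
    (η ((x + 1 : ℝ) : ℂ)).re = (η x).re + 1 := by
  have h1 : ((x : ℝ) : ℂ) ∈ St (s0 / 4) := by
    change |((x : ℂ)).im| < s0 / 4
    simp
    exact hs
  have h2 := h.per _ h1
  push_cast
  rw [h2]
  simp

theorem d12_per {s0 : ℝ} (hs : 0 < s0) {η : ℂ → ℂ} (h : Adm s0 η) (k : ℤ) (x : ℝ) :
    (η ((x + k : ℝ) : ℂ)).re = (η x).re + k := by
  induction k using Int.induction_on generalizing x with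
  | zero => simp
  | succ i ih =>
    have h1 := d12_per1 hs h (x + i)
    have h2 := ih x
    push_cast at h1 h2 ⊢
    rw [← add_assoc, h1, h2]
    ring
  | pred i ih =>
    have h1 := d12_per1 hs h (x + (-(i : ℝ) - 1))
    have h2 := ih x
    have e : x + (-(i : ℝ) - 1) + 1 = x + -(i : ℝ) := by ring
    rw [e] at h1
    push_cast at h1 h2 ⊢
    rw [h2] at h1
    linarith

theorem d12_gg_sub {s0 : ℝ} (hs : 0 < s0) {Ω : Type} {η : Ω → ℂ → ℂ} (h : ∀ ω, Adm s0 (η ω)) (ω : Ω × ℝ)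
    (Φ Ψ : ℝ → ℝ) (x : ℝ) : |gg η ω Φ x - gg η ω Ψ x| ≤ 2 * |Φ x - Ψ x| := by
  unfold gg
  refine (d12_lip hs (h ω.1) _ _).trans (le_of_eq ?_)
  congr 2
  ring

theorem d12_gg_add {s0 : ℝ} (hs : 0 < s0) {Ω : Type} {η : Ω → ℂ → ℂ} (h : ∀ ω, Adm s0 (η ω)) (ω : Ω × ℝ)
    (Φ : ℝ → ℝ) (k : ℤ) (x : ℝ) : gg η ω (fun x => Φ x + k) x = gg η ω Φ x + k := by
  unfold gg
  have := d12_per hs (h ω.1) k (Φ x + ω.2)
  rw [← this]
  congr 3
  ring

/-- `gg` is continuous in the random element, uniformly in `x` -/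
theorem d12_gg_cont {s0 : ℝ} (hs : 0 < s0) {Ω : Type} [TopologicalSpace Ω] {η : Ω → ℂ → ℂ}
    (h : ∀ ω, Adm s0 (η ω))
    (hcont : ContinuousOn (fun x : Ω × ℂ => η x.1 x.2) (Set.univ ×ˢ St (s0 / 4))) (ω0 : Ω × ℝ) (δ : ℝ)
    (hδ : 0 < δ) : ∀ᶠ ω in nhds ω0, ∀ (Φ : ℝ → ℝ) (x : ℝ), |gg η ω Φ x - gg η ω0 Φ x| ≤ δ := by
  have hc : Continuous (fun z : (Ω × ℝ) × ℝ => (η z.1.1 ((z.2 + z.1.2 : ℝ) : ℂ)).re) := by
    apply Complex.continuous_re.comp
    refine hcont.comp_continuous (f := fun z : (Ω × ℝ) × ℝ => (z.1.1, ((z.2 + z.1.2 : ℝ) : ℂ))) ?_ ?_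
    · fun_prop
    · intro z
      refine ⟨trivial, ?_⟩
      change |(((z.2 + z.1.2 : ℝ) : ℂ)).im| < s0 / 4
      rw [Complex.ofReal_im]
      simp
      exact hs
  have hc2 : Continuous (fun z : (Ω × ℝ) × ℝ => |(η z.1.1 ((z.2 + z.1.2 : ℝ) : ℂ)).re -
      (η ω0.1 ((z.2 + ω0.2 : ℝ) : ℂ)).re|) := by
    refine continuous_abs.comp (hc.sub ?_)
    exact hc.comp (f := fun z : (Ω × ℝ) × ℝ => (ω0, z.2)) (by fun_prop)
  have h1 := (isCompact_Icc (a := (0 : ℝ)) (b := 1)).eventually_forall_of_forall_eventually (x₀ := ω0)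
    (P := fun ω s => |(η ω.1 ((s + ω.2 : ℝ) : ℂ)).re - (η ω0.1 ((s + ω0.2 : ℝ) : ℂ)).re| < δ) (fun s _ => by
      have : ∀ᶠ z in nhds (ω0, s), |(η z.1.1 ((z.2 + z.1.2 : ℝ) : ℂ)).re -
          (η ω0.1 ((z.2 + ω0.2 : ℝ) : ℂ)).re| < δ := by
        apply hc2.continuousAt.eventually_lt continuousAt_const
        simpa using hδ
      exact this)
  filter_upwards [h1] with ω hω Φ x
  unfold gg
  have h2 := hω (Int.fract (Φ x)) ⟨Int.fract_nonneg _, (Int.fract_lt_one _).le⟩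
  have e1 := d12_per hs (h ω.1) ⌊Φ x⌋ (Int.fract (Φ x) + ω.2)
  have e2 := d12_per hs (h ω0.1) ⌊Φ x⌋ (Int.fract (Φ x) + ω0.2)
  have e3 : Int.fract (Φ x) + ω.2 + (⌊Φ x⌋ : ℝ) = Φ x + ω.2 := by
    have := Int.fract_add_floor (Φ x)
    linarith
  have e4 : Int.fract (Φ x) + ω0.2 + (⌊Φ x⌋ : ℝ) = Φ x + ω0.2 := by
    have := Int.fract_add_floor (Φ x)
    linarith
  rw [e3] at e1
  rw [e4] at e2
  rw [e1, e2]
  have e5 : (η ω.1 ((Int.fract (Φ x) + ω.2 : ℝ) : ℂ)).re + (⌊Φ x⌋ : ℝ) -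
      ((η ω0.1 ((Int.fract (Φ x) + ω0.2 : ℝ) : ℂ)).re + (⌊Φ x⌋ : ℝ)) =
      (η ω.1 ((Int.fract (Φ x) + ω.2 : ℝ) : ℂ)).re - (η ω0.1 ((Int.fract (Φ x) + ω0.2 : ℝ) : ℂ)).re := by ring
  rw [e5]
  exact h2.le

/-! ### the homotopy -/

theorem d12_prAA {n : ℕ} {l : ℕ} {G y : Sq} (hG : ∀ k, G k ∈ AA n) (hy : ∀ k, y k ∈ AA n) :
    ∀ k, d12_pr l G y k ∈ AA n := by
  intro k
  unfold d12_pr
  split_ifs
  · exact hG _
  · exact hy _

theorem d12_cont {n n' p : ℕ} {ρ s M s0 : ℝ} {Ω : Type} [TopologicalSpace Ω] [MeasurableSpace Ω]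
    {P : Measure Ω} {η : Ω → ℂ → ℂ} {w : Ω → (ℂ → ℂ) → ℂ} {Cw : ℝ}
    (hc : Ctx n n' ρ s M s0 Ω P η w Cw) (hsub : AA n ⊆ AA n') {C : Sq → ℂ} (hC : LC n' (p + 1) C)
    (l : ℕ) (y : Sq) (hy : ∀ k, y k ∈ AA n) :
    Continuous (fun ω : Fin (p + 1) → Ω × ℝ => C (d12_pr l (d12_G η (p + 1) ω y) y)) := by
  rw [continuous_iff_continuousAt]
  intro ω0
  rw [Metric.continuousAt_iff']
  intro ε hε
  obtain ⟨δ, hδ, h⟩ := hC.uc (ε / 2) (by positivity)
  have h1 : ∀ᶠ ω in nhds ω0, ∀ k : Fin (p + 1), ∀ (Φ : ℝ → ℝ) (x : ℝ), |gg η (ω k) Φ x - gg η (ω0 k) Φ x| ≤ δ := by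
    rw [Filter.eventually_all]
    intro k
    exact (continuous_apply k).continuousAt.eventually
      (d12_gg_cont hc.s0pos hc.smd.adm hc.smd.cont (ω0 k) δ hδ)
  filter_upwards [h1] with ω hω
  rw [dist_eq_norm]
  refine lt_of_le_of_lt (h _ _ (d12_prAA (d12_GAA hc.good hc.smd.adm hsub _ ω hy) (fun k => hsub (hy k)))
    (d12_prAA (d12_GAA hc.good hc.smd.adm hsub _ ω0 hy) (fun k => hsub (hy k))) ?_) (by linarith)
  intro k _ x
  unfold d12_pr d12_G
  by_cases h2 : k ≤ l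
  · rw [if_pos h2, if_pos h2]
    by_cases h3 : k < p + 1
    · rw [dif_pos h3, dif_pos h3]
      exact hω _ _ _
    · rw [dif_neg h3, dif_neg h3]
      simp [hδ.le]
  · rw [if_neg h2, if_neg h2]
    simp [hδ.le]

theorem d12_int {n n' p : ℕ} {ρ s M s0 : ℝ} {Ω : Type} [TopologicalSpace Ω] [CompactSpace Ω]
    [SecondCountableTopology Ω] [MeasurableSpace Ω] [BorelSpace Ω]
    {P : Measure Ω} [IsProbabilityMeasure P] {η : Ω → ℂ → ℂ} {w : Ω → (ℂ → ℂ) → ℂ} {Cw : ℝ}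
    (hc : Ctx n n' ρ s M s0 Ω P η w Cw) (hsub : AA n ⊆ AA n') {C : Sq → ℂ} (hC : LC n' (p + 1) C)
    (l : ℕ) (y : Sq) (hy : ∀ k, y k ∈ AA n) :
    Integrable (fun ω : Fin (p + 1) → Ω × ℝ => C (d12_pr l (d12_G η (p + 1) ω y) y))
      (Measure.pi fun _ => PP P) := by
  have hcn := d12_cont hc hsub hC l y hy
  have hK : IsCompact (Set.pi Set.univ (fun _ : Fin (p + 1) => (Set.univ : Set Ω) ×ˢ Set.Icc (0 : ℝ) 1)) :=
    isCompact_univ_pi fun _ => isCompact_univ.prod isCompact_Icc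
  obtain ⟨B, hB⟩ := hK.exists_bound_of_continuousOn hcn.continuousOn
  refine Integrable.of_bound hcn.aestronglyMeasurable B ?_
  have h1 : ∀ k : Fin (p + 1), ∀ᵐ ω : Fin (p + 1) → Ω × ℝ ∂(Measure.pi fun _ => PP P),
      (ω k).2 ∈ Set.Icc (0 : ℝ) 1 := by
    intro k
    have h2 : ∀ᵐ x ∂(PP P), x.2 ∈ Set.Icc (0 : ℝ) 1 := by
      unfold PP
      exact (measurePreserving_snd (μ := P) (ν := volume.restrict (Set.Icc (0 : ℝ) 1))).quasiMeasurePreserving.ae
        (ae_restrict_mem measurableSet_Icc)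
    exact (d12_mpE (PP P) p k).quasiMeasurePreserving.ae h2
  rw [← ae_all_iff] at h1
  filter_upwards [h1] with ω hω
  exact hB ω fun k _ => ⟨trivial, hω k⟩

/-- the integrand of the homotopy -/
def d12_hh {Ω : Type} (η : Ω → ℂ → ℂ) (p : ℕ) (C : Sq → ℂ) (ω : Fin (p + 1) → Ω × ℝ) (y : Sq) : ℂ :=
  ∑ l ∈ Finset.range (p + 1), (-1 : ℂ) ^ l * C (d12_pr l (d12_G η (p + 1) ω y) y)

/-- the homotopy -/
def d12_h {Ω : Type} [MeasurableSpace Ω] (P : Measure Ω) (η : Ω → ℂ → ℂ) (p : ℕ) (C : Sq → ℂ) (y : Sq) : ℂ :=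
  ∫ ω : Fin (p + 1) → Ω × ℝ, d12_hh η p C ω y ∂(Measure.pi fun _ => PP P)

theorem d12_hint {n n' p : ℕ} {ρ s M s0 : ℝ} {Ω : Type} [TopologicalSpace Ω] [CompactSpace Ω]
    [SecondCountableTopology Ω] [MeasurableSpace Ω] [BorelSpace Ω]
    {P : Measure Ω} [IsProbabilityMeasure P] {η : Ω → ℂ → ℂ} {w : Ω → (ℂ → ℂ) → ℂ} {Cw : ℝ}
    (hc : Ctx n n' ρ s M s0 Ω P η w Cw) (hsub : AA n ⊆ AA n') {C : Sq → ℂ} (hC : LC n' (p + 1) C)
    (y : Sq) (hy : ∀ k, y k ∈ AA n) :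
    Integrable (fun ω : Fin (p + 1) → Ω × ℝ => d12_hh η p C ω y) (Measure.pi fun _ => PP P) := by
  unfold d12_hh
  exact integrable_finsetSum _ fun l _ => (d12_int hc hsub hC l y hy).const_mul _

theorem d12_hLC {n n' p : ℕ} {ρ s M s0 : ℝ} {Ω : Type} [TopologicalSpace Ω] [CompactSpace Ω]
    [SecondCountableTopology Ω] [MeasurableSpace Ω] [BorelSpace Ω]
    {P : Measure Ω} [IsProbabilityMeasure P] {η : Ω → ℂ → ℂ} {w : Ω → (ℂ → ℂ) → ℂ} {Cw : ℝ}
    (hc : Ctx n n' ρ s M s0 Ω P η w Cw) (hsub : AA n ⊆ AA n') {C : Sq → ℂ} (hC : LC n' (p + 1) C) :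
    LC n p (d12_h P η p C) := by
  refine ⟨?_, ?_, ?_, ?_⟩
  · intro y y' h
    unfold d12_h d12_hh
    congr 1
    funext ω
    refine Finset.sum_congr rfl fun l hl => ?_
    have hl' := Finset.mem_range.1 hl
    congr 1
    apply hC.dep
    intro k hk
    unfold d12_pr d12_G
    by_cases h2 : k ≤ l
    · rw [if_pos h2, if_pos h2, h k (by omega)]
    · rw [if_neg h2, if_neg h2, h (k - 1) (by omega)]
  · intro ε hε
    obtain ⟨δ, hδ, h⟩ := hC.uc (ε / (p + 1)) (by positivity)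
    refine ⟨δ / 2, by positivity, fun y y' hy hy' hyy => ?_⟩
    unfold d12_h
    rw [← integral_sub (d12_hint hc hsub hC y hy) (d12_hint hc hsub hC y' hy')]
    have h1 : ∀ ω : Fin (p + 1) → Ω × ℝ, ‖d12_hh η p C ω y - d12_hh η p C ω y'‖ ≤ ε := by
      intro ω
      unfold d12_hh
      rw [← Finset.sum_sub_distrib]
      refine (norm_sum_le _ _).trans ?_
      have h2 : ∀ l ∈ Finset.range (p + 1), ‖(-1 : ℂ) ^ l * C (d12_pr l (d12_G η (p + 1) ω y) y) -
          (-1 : ℂ) ^ l * C (d12_pr l (d12_G η (p + 1) ω y') y')‖ ≤ ε / (p + 1) := by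
        intro l hl
        have hl' := Finset.mem_range.1 hl
        rw [← mul_sub, norm_mul, norm_pow, norm_neg, norm_one, one_pow, one_mul]
        apply h _ _ (d12_prAA (d12_GAA hc.good hc.smd.adm hsub _ ω hy) (fun k => hsub (hy k)))
          (d12_prAA (d12_GAA hc.good hc.smd.adm hsub _ ω hy') (fun k => hsub (hy' k)))
        intro k hk x
        unfold d12_pr d12_G
        by_cases h2 : k ≤ l
        · rw [if_pos h2, if_pos h2]
          have h3 : k < p + 1 := by omega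
          rw [dif_pos h3, dif_pos h3]
          have h4 := d12_gg_sub hc.s0pos hc.smd.adm (ω ⟨k, h3⟩) (y k) (y' k) x
          have h5 := hyy k (by omega) x
          linarith
        · rw [if_neg h2, if_neg h2]
          have h5 := hyy (k - 1) (by omega) x
          linarith
      refine (Finset.sum_le_sum h2).trans (le_of_eq ?_)
      rw [Finset.sum_const, Finset.card_range, nsmul_eq_mul]
      push_cast
      field_simp
    have h3 := norm_integral_le_of_norm_le_const (μ := Measure.pi fun _ : Fin (p + 1) => PP P)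
      (Filter.Eventually.of_forall h1)
    simpa using h3
  · intro y t hy
    unfold d12_h d12_hh
    congr 1
    funext ω
    refine Finset.sum_congr rfl fun l hl => ?_
    congr 1
    have h1 := hC.zinv (d12_pr l (d12_G η (p + 1) ω y) y) (fun k => if k ≤ l then t k else t (k - 1))
      (d12_prAA (d12_GAA hc.good hc.smd.adm hsub _ ω hy) (fun k => hsub (hy k)))
    rw [← h1]
    congr 1
    funext k x
    unfold d12_pr d12_G
    by_cases h2 : k ≤ l
    · simp only [if_pos h2]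
      by_cases h3 : k < p + 1
      · rw [dif_pos h3, dif_pos h3]
        exact d12_gg_add hc.s0pos hc.smd.adm _ _ _ _
      · rw [dif_neg h3, dif_neg h3]
    · simp only [if_neg h2]
  · intro y g hg hy hyg
    unfold d12_h d12_hh
    congr 1
    funext ω
    refine Finset.sum_congr rfl fun l hl => ?_
    congr 1
    have e : (d12_pr l (d12_G η (p + 1) ω fun k x => y k (g x)) fun k x => y k (g x)) =
        fun k x => d12_pr l (d12_G η (p + 1) ω y) y k (g x) := by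
      funext k x
      unfold d12_pr d12_G
      by_cases h2 : k ≤ l
      · simp only [if_pos h2]
        by_cases h3 : k < p + 1
        · rw [dif_pos h3, dif_pos h3]
          rfl
        · rw [dif_neg h3, dif_neg h3]
      · simp only [if_neg h2]
    rw [e]
    apply hC.rinv _ g hg (d12_prAA (d12_GAA hc.good hc.smd.adm hsub _ ω hy) (fun k => hsub (hy k)))
    have h1 := d12_prAA (l := l) (d12_GAA hc.good hc.smd.adm hsub (p + 1) ω (y := fun k x => y k (g x)) hyg)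
      (fun k => hsub (hyg k))
    rw [e] at h1
    exact h1

theorem d12_partB {n n' p : ℕ} {ρ s M s0 : ℝ} {Ω : Type} [TopologicalSpace Ω] [CompactSpace Ω]
    [SecondCountableTopology Ω] [MeasurableSpace Ω] [BorelSpace Ω]
    {P : Measure Ω} [IsProbabilityMeasure P] {η : Ω → ℂ → ℂ} {w : Ω → (ℂ → ℂ) → ℂ} {Cw : ℝ}
    (hc : Ctx n n' ρ s M s0 Ω P η w Cw) (hsub : AA n ⊆ AA n') {C : Sq → ℂ} (hC : LC n' (p + 1) C)
    (hCc : CocL n' (p + 1) C)
    (y v : Sq) (hy : ∀ k, y k ∈ AA n)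
    (hint : Integrable (fun ω : Fin (p + 2) → Ω × ℝ => C (d12_G η (p + 2) ω y)) (Measure.pi fun _ => PP P)) :
    C y = CJ P η w ρ (p + 1) C 0 y v + dlt p (d12_h P η p C) y := by
  have h1 : ∀ i : Fin (p + 2),
      Integrable (fun ω : Fin (p + 2) → Ω × ℝ => d12_hh η p C (fun k => ω (i.succAbove k)) (rm i y))
        (Measure.pi fun _ => PP P) ∧
      ∫ ω : Fin (p + 2) → Ω × ℝ, d12_hh η p C (fun k => ω (i.succAbove k)) (rm i y) ∂(Measure.pi fun _ => PP P)
        = d12_h P η p C (rm i y) := fun i =>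
    d12_integral (PP P) (p + 1) i _ (d12_hint hc hsub hC (rm i y) (d12_rmAA hy))
  have h2 : ∀ ω : Fin (p + 2) → Ω × ℝ, C y - C (d12_G η (p + 2) ω y) =
      ∑ i : Fin (p + 2), (-1 : ℂ) ^ (i : ℕ) * d12_hh η p C (fun k => ω (i.succAbove k)) (rm i y) := by
    intro ω
    rw [d12_alg hC hCc (d12_G η (p + 2) ω y) y (d12_GAA hc.good hc.smd.adm hsub _ ω hy) (fun k => hsub (hy k)),
      Finset.sum_range]
    refine Finset.sum_congr rfl fun i _ => ?_
    unfold d12_hh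
    rw [← d12_rm]
  have h3 : ∫ ω : Fin (p + 2) → Ω × ℝ, (C y - C (d12_G η (p + 2) ω y)) ∂(Measure.pi fun _ => PP P)
      = ∑ i : Fin (p + 2), (-1 : ℂ) ^ (i : ℕ) * d12_h P η p C (rm i y) := by
    simp only [h2]
    rw [integral_finsetSum _ (fun i _ => (h1 i).1.const_mul _)]
    refine Finset.sum_congr rfl fun i _ => ?_
    rw [integral_const_mul, (h1 i).2]
  rw [integral_sub (integrable_const _) hint, integral_const] at h3
  have h4 : CJ P η w ρ (p + 1) C 0 y v = ∫ ω : Fin (p + 2) → Ω × ℝ, C (d12_G η (p + 2) ω y)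
      ∂(Measure.pi fun _ => PP P) := by
    unfold CJ
    congr 1
    funext ω
    have : ∏ b : Fin (p + 1 + 1), (if (b : ℕ) < 0 then ww w (ω b) (pull ρ (y b) (v b)) else 1) = 1 :=
      Finset.prod_eq_one fun b _ => if_neg (by omega)
    rw [this, mul_one]
    rfl
  rw [h4]
  unfold dlt
  rw [Finset.sum_range, ← h3]
  simp

/-- D12 -/
theorem st_D12 (hD2 : ST_D2) (hD5 : ST_D5) : ST_D12 := by
  intro n n' p ρ s M s0 Ω _ _ _ _ _ _ P _ η w Cw hc C hC hCc
  have hsub : AA n ⊆ AA n' := hD2.1 n n' hc.good.1 hc.good.2.1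
  have hint := (hD5 n n' (p + 1) ρ s M s0 Ω P η w Cw hc C hC).1
  refine ⟨fun j hj y v K hy hv => d12_partA hc hsub hCc hint j hj y v K hy hv,
    d12_h P η p C, d12_hLC hc hsub hC, fun y v hy => ?_⟩
  apply d12_partB hc hsub hC hCc y v hy
  have h0 : ∃ K : ℝ, ∀ b : ℕ, (fun _ : ℝ => (0 : ℝ)) ∈ VV n K := by
    refine ⟨0, fun _ => ⟨⟨y 0, hy 0, y 0, hy 0, ?_⟩, ?_⟩⟩
    · funext x
      ring
    · intro x
      simp
  obtain ⟨K, hK⟩ := h0
  have h1 := hint 0 (by omega) y (fun _ _ => 0) K hy hK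
  refine h1.congr (Filter.Eventually.of_forall fun ω => ?_)
  have : ∏ b : Fin (p + 1 + 1), (if (b : ℕ) < 0 then ww w (ω b) (pull ρ (y b) (fun _ => 0)) else 1) = 1 :=
    Finset.prod_eq_one fun b _ => if_neg (by omega)
  dsimp only
  rw [this, mul_one]
  rfl

end

end Pool.Agent.Helper67.DO
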