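import Pool.Agent.Helper75.DO.E13C

set_option autoImplicit false

/-!
# Module E13 of MP_d07457_gt: `GV_{k+1}` is not exact on thin strips
-/

namespace Pool.Agent.Helper67.DO

open scoped BigOperators Real
open MeasureTheory

noncomputable section

/-! ### the centres -/

theorem e13_fin_lt_one {ι : Type*} (S : Finset ι) (f : ι → ℝ) (h : ∀ x ∈ S, f x < 1) :
    ∃ κ : ℝ, 0 ≤ κ ∧ κ < 1 ∧ ∀ x ∈ S, f x ≤ κ := by
  classical
  induction S using Finset.induction_on with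
  | empty => exact ⟨0, le_rfl, one_pos, by simp⟩
  | insert a S _ ih =>
    obtain ⟨κ, h0, h1, h2⟩ := ih fun x hx => h x (Finset.mem_insert_of_mem hx)
    refine ⟨max κ (f a), le_max_of_le_left h0, max_lt h1 (h a (Finset.mem_insert_self a S)), ?_⟩
    intro x hx
    rcases Finset.mem_insert.1 hx with rfl | hx
    · exact le_max_right _ _
    · exact (h2 x hx).trans (le_max_left _ _)

theorem e13_cos_lt {k : ℕ} {i j : Fin (k + 1)} (hij : i ≠ j) :
    |Real.cos (π * (e13_c k i - e13_c k j))| < 1 := by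
  have hk : (0 : ℝ) < (k : ℝ) + 1 := by positivity
  have hs : Real.sin (π * (e13_c k i - e13_c k j)) ≠ 0 := by
    intro h
    obtain ⟨n, hn⟩ := Real.sin_eq_zero_iff.1 h
    have h1 : (n : ℝ) = e13_c k i - e13_c k j := by
      have hpi := Real.pi_ne_zero
      apply mul_right_cancel₀ hpi
      rw [hn]
      ring
    unfold e13_c at h1
    have h2 : (n : ℝ) * (k + 1) = (i : ℕ) - (j : ℕ) := by
      rw [h1]
      field_simp
    have h3 : n * ((k : ℤ) + 1) = ((i : ℕ) : ℤ) - ((j : ℕ) : ℤ) := by exact_mod_cast h2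
    have hi := i.2
    have hj := j.2
    have hne : (i : ℕ) ≠ j := fun h => hij (Fin.ext h)
    rcases lt_trichotomy n 0 with hn | hn | hn
    · have : n * ((k : ℤ) + 1) ≤ -1 * ((k : ℤ) + 1) :=
        mul_le_mul_of_nonneg_right (by omega) (by omega)
      omega
    · rw [hn, zero_mul] at h3
      omega
    · have : 1 * ((k : ℤ) + 1) ≤ n * ((k : ℤ) + 1) :=
        mul_le_mul_of_nonneg_right (by omega) (by omega)
      omega
  rw [← sq_lt_one_iff_abs_lt_one]
  have h1 := Real.sin_sq_add_cos_sq (π * (e13_c k i - e13_c k j))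
  have h2 : 0 < Real.sin (π * (e13_c k i - e13_c k j)) ^ 2 := by positivity
  linarith

theorem e13_kappa (k : ℕ) : ∃ κ : ℝ, 0 ≤ κ ∧ κ < 1 ∧ ∀ i j : Fin (k + 1), i ≠ j →
    |Real.cos (π * (e13_c k i - e13_c k j))| ≤ κ := by
  obtain ⟨κ, h0, h1, h2⟩ := e13_fin_lt_one
    ((Finset.univ : Finset (Fin (k + 1) × Fin (k + 1))).filter fun x => x.1 ≠ x.2)
    (fun x => |Real.cos (π * (e13_c k x.1 - e13_c k x.2))|) (by
      intro x hx
      exact e13_cos_lt (Finset.mem_filter.1 hx).2)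
  exact ⟨κ, h0, h1, fun i j hij => h2 (i, j) (Finset.mem_filter.2 ⟨Finset.mem_univ _, hij⟩)⟩

/-- total weight -/
def e13_W (k : ℕ) : ℝ := ∑ τ : Fin (k + 1) → Bool, ‖∏ j, e13_w (τ j)‖

theorem e13_W_nonneg (k : ℕ) : 0 ≤ e13_W k := Finset.sum_nonneg fun _ _ => norm_nonneg _

/-! ### the bound for `∂F` -/

theorem e13_brk_vv_le {k N : ℕ} {κ s : ℝ}
    (hκ : ∀ i j : Fin (k + 1), i ≠ j → |Real.cos (π * (e13_c k i - e13_c k j))| ≤ κ)
    (τ : Fin (k + 1) → Bool) {a b : Fin (2 * (k + 1))}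
    (hab : ((e13_e k).symm a).1 ≠ ((e13_e k).symm b).1) {z : ℂ} (hz : |z.im| ≤ s) :
    ‖brk (e13_vv k N τ a) (e13_vv k N τ b) z‖ ≤ 2 * (π * (2 * N + 6 : ℕ)) *
      (((Real.cosh (2 * π * s) + κ) / 2) ^ (2 * N + 1) * (Real.cosh (π * s) ^ 5) ^ 2) := by
  have h := e13_brk_le (c := e13_c k ((e13_e k).symm a).1) (d := e13_c k ((e13_e k).symm b).1)
    (n := 2 * N + 6) (L := 2 * N + 1)
    (e13_exp N ((e13_e k).symm a).2 (τ ((e13_e k).symm a).1))
    (by have := e13_ty_le ((e13_e k).symm a).2 (τ ((e13_e k).symm a).1); omega)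
    (e13_exp N ((e13_e k).symm b).2 (τ ((e13_e k).symm b).1))
    (by have := e13_ty_le ((e13_e k).symm b).2 (τ ((e13_e k).symm b).1); omega)
    (e13_sin_St hz) (e13_cos_St hz) (e13_sin_St hz) (e13_cos_St hz)
    (e13_coscos hz (hκ _ _ hab))
  have e : 2 * N + 6 - (2 * N + 1) = 5 := by omega
  rw [e] at h
  exact h

theorem e13_dd_le (h12 : ST_E12) {k N : ℕ} {κ s : ℝ} (hκ0 : 0 ≤ κ)
    (hκ : ∀ i j : Fin (k + 1), i ≠ j → |Real.cos (π * (e13_c k i - e13_c k j))| ≤ κ)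
    {z : Fin (2 * k + 1) → ℂ} (hz : z ∈ PU (2 * k + 1) (St s)) :
    ‖dd (2 * k + 1) (e13_F k N) z‖ ≤ (2 * k + 2) * ((2 * k + 2) * (e13_W k *
      (((2 * k + 1).factorial : ℝ) * (2 * (π * (2 * N + 6 : ℕ)) *
      (((Real.cosh (2 * π * s) + κ) / 2) ^ (2 * N + 1) * (Real.cosh (π * s) ^ 5) ^ 2) *
      (Real.cosh (π * s) ^ (2 * N + 6)) ^ (2 * k))))) := by
  set Bb := 2 * (π * (2 * N + 6 : ℕ)) *
      (((Real.cosh (2 * π * s) + κ) / 2) ^ (2 * N + 1) * (Real.cosh (π * s) ^ 5) ^ 2) with hBb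
  set Rn := Real.cosh (π * s) ^ (2 * N + 6) with hRn
  have hRn0 : 0 ≤ Rn := by positivity
  have hBb0 : 0 ≤ Bb := by
    have := Real.cosh_pos (2 * π * s)
    positivity
  have hW0 := e13_W_nonneg k
  have e0 : dd (2 * k + 1) (e13_F k N) z
      = ∑ τ : Fin (k + 1) → Bool, (∏ j, e13_w (τ j)) * dd (2 * k + 1) (WW (e13_vv k N τ)) z :=
    e13_dd_sum (q := 2 * k + 1) Finset.univ (fun τ : Fin (k + 1) → Bool => ∏ j, e13_w (τ j))
      (fun τ => WW (e13_vv k N τ))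
      (fun τ => WW_hol fun i => (e13_vv_diff k N τ i).differentiableOn) z
  have e1 : ∀ τ : Fin (k + 1) → Bool, dd (2 * k + 1) (WW (e13_vv k N τ)) z
      = ∑ a : Fin (2 * k + 2), ∑ b : Fin (2 * k + 2), if a < b then
        (-1 : ℂ) ^ ((b : ℕ) + 1) * WW (b.removeNth (Function.update (e13_vv k N τ) a
          (brk (e13_vv k N τ a) (e13_vv k N τ b)))) z else 0 := fun τ =>
    h12 (2 * k) Set.univ isOpen_univ (e13_vv k N τ)
      (fun i => (e13_vv_diff k N τ i).differentiableOn) z (fun _ => Set.mem_univ _)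
  have e2 : dd (2 * k + 1) (e13_F k N) z
      = ∑ a : Fin (2 * k + 2), ∑ b : Fin (2 * k + 2), ∑ τ : Fin (k + 1) → Bool,
        (∏ j, e13_w (τ j)) * (if a < b then
        (-1 : ℂ) ^ ((b : ℕ) + 1) * WW (b.removeNth (Function.update (e13_vv k N τ) a
          (brk (e13_vv k N τ a) (e13_vv k N τ b)))) z else 0) := by
    rw [e0]
    simp only [e1, Finset.mul_sum]
    rw [Finset.sum_comm]
    refine Finset.sum_congr rfl fun a _ => ?_
    rw [Finset.sum_comm]
  have hin : ∀ a b : Fin (2 * k + 2), ‖∑ τ : Fin (k + 1) → Bool,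
        (∏ j, e13_w (τ j)) * (if a < b then
        (-1 : ℂ) ^ ((b : ℕ) + 1) * WW (b.removeNth (Function.update (e13_vv k N τ) a
          (brk (e13_vv k N τ a) (e13_vv k N τ b)))) z else 0)‖
        ≤ e13_W k * (((2 * k + 1).factorial : ℝ) * (Bb * Rn ^ (2 * k))) := by
    intro a b
    have hpos : 0 ≤ e13_W k * (((2 * k + 1).factorial : ℝ) * (Bb * Rn ^ (2 * k))) := by positivity
    by_cases hab : a < b
    swap
    · simp only [if_neg hab, mul_zero, Finset.sum_const_zero, norm_zero]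
      exact hpos
    simp only [if_pos hab]
    by_cases hblk : ((e13_e k).symm a).1 = ((e13_e k).symm b).1
    · have := e13_cancel (k := k) (N := N) (q := 2 * k + 1) rfl (a := a) (b := b) hab hblk z
        ((-1 : ℂ) ^ ((b : ℕ) + 1)) (fun v => b.removeNth v) (fun v => rfl)
      rw [this, norm_zero]
      exact hpos
    · refine (norm_sum_le _ _).trans ?_
      rw [e13_W, Finset.sum_mul]
      refine Finset.sum_le_sum fun τ _ => ?_
      rw [norm_mul]
      refine mul_le_mul_of_nonneg_left ?_ (norm_nonneg _)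
      rw [norm_mul, norm_pow, norm_neg, norm_one, one_pow, one_mul]
      obtain ⟨a', ha'⟩ : ∃ a' : Fin (2 * k + 1), b.succAbove a' = a :=
        Fin.exists_succAbove_eq hab.ne
      have hprod : ∏ i : Fin (2 * k + 1), Function.update (fun _ => Rn) a' Bb i = Bb * Rn ^ (2 * k) := by
        rw [Finset.prod_update_of_mem (Finset.mem_univ a'), Finset.prod_const,
          Finset.card_sdiff_of_subset (Finset.subset_univ _)]
        simp
      rw [← hprod]
      refine e13_WW_norm fun i j => ?_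
      have hzj : |(z j).im| ≤ s := le_of_lt (hz j)
      change ‖Function.update (e13_vv k N τ) a (brk (e13_vv k N τ a) (e13_vv k N τ b))
        (b.succAbove i) (z j)‖ ≤ _
      by_cases hi : i = a'
      · subst hi
        rw [ha', Function.update_self, Function.update_self]
        exact e13_brk_vv_le hκ τ hblk hzj
      · have hne : b.succAbove i ≠ a := by
          intro h
          rw [← ha'] at h
          exact hi (Fin.succAbove_right_injective h)
        rw [Function.update_of_ne hne, Function.update_of_ne hi]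
        exact e13_vv_le k N τ _ hzj
  rw [e2]
  refine (norm_sum_le _ _).trans ?_
  have h2 : ∀ a : Fin (2 * k + 2), ‖∑ b : Fin (2 * k + 2), ∑ τ : Fin (k + 1) → Bool,
        (∏ j, e13_w (τ j)) * (if a < b then
        (-1 : ℂ) ^ ((b : ℕ) + 1) * WW (b.removeNth (Function.update (e13_vv k N τ) a
          (brk (e13_vv k N τ a) (e13_vv k N τ b)))) z else 0)‖
        ≤ (2 * k + 2) * (e13_W k * (((2 * k + 1).factorial : ℝ) * (Bb * Rn ^ (2 * k)))) := by
    intro a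
    refine (norm_sum_le _ _).trans ((Finset.sum_le_sum fun b _ => hin a b).trans (le_of_eq ?_))
    rw [Finset.sum_const, Finset.card_univ, Fintype.card_fin, nsmul_eq_mul]
    push_cast
    ring
  refine (Finset.sum_le_sum fun a _ => h2 a).trans (le_of_eq ?_)
  rw [Finset.sum_const, Finset.card_univ, Fintype.card_fin, nsmul_eq_mul]
  push_cast
  ring

/-! ### the value of `GV` -/

/-- one term -/
def e13_X (k N : ℕ) (σ : Equiv.Perm (Fin (k + 1) × Fin 2)) : ℂ :=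
  ∑ τ : Fin (k + 1) → Bool, (∏ j, e13_w (τ j)) * (((Equiv.Perm.sign σ : ℤ) : ℂ) *
    ∏ i, e13_I (e13_v k N τ (σ (i, 0))) (e13_v k N τ (σ (i, 1))))

theorem e13_GV (h10 : ST_E10) (h11 : ST_E11) (k N : ℕ) :
    GVm (k + 1) (e13_F k N) = ∑ σ : Equiv.Perm (Fin (k + 1) × Fin 2), e13_X k N σ := by
  obtain ⟨-, -, -, hG, -⟩ := h10 (k + 1) 1 one_pos
  have hBO : ∀ τ : Fin (k + 1) → Bool, BO (2 * (k + 1)) (St 1) (WW (e13_vv k N τ)) := fun τ =>
    WW_BO (R := Real.cosh (π * 1) ^ (2 * N + 6))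
      (fun i => (e13_vv_diff k N τ i).differentiableOn) (fun i z _ => e13_vv_per k N τ i z)
      (fun i z hz => e13_vv_le k N τ i (le_of_lt hz))
  have e1 : GVm (k + 1) (e13_F k N)
      = ∑ τ : Fin (k + 1) → Bool, (∏ j, e13_w (τ j)) * GVm (k + 1) (WW (e13_vv k N τ)) := by
    have h1 := hG.sum' Finset.univ (fun τ : Fin (k + 1) → Bool => fun z => (∏ j, e13_w (τ j)) * WW (e13_vv k N τ) z)
      (fun τ _ => (hBO τ).smul _)
    refine h1.trans (Finset.sum_congr rfl fun τ _ => ?_)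
    exact hG.smul _ _ (hBO τ)
  have e2 : ∀ τ : Fin (k + 1) → Bool, GVm (k + 1) (WW (e13_vv k N τ))
      = ∑ σ : Equiv.Perm (Fin (k + 1) × Fin 2), ((Equiv.Perm.sign σ : ℤ) : ℂ) *
        ∏ i, e13_I (e13_v k N τ (σ (i, 0))) (e13_v k N τ (σ (i, 1))) := by
    intro τ
    have h1 := (h11 (k + 1) 1 one_pos (e13_vv k N τ)
      (fun i => (e13_vv_diff k N τ i).differentiableOn) (fun i z _ => e13_vv_per k N τ i z)).2
    rw [h1, ← Equiv.sum_comp (e13_e k).permCongr]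
    refine Finset.sum_congr rfl fun σ _ => ?_
    rw [Equiv.Perm.sign_permCongr]
    congr 1
    refine Finset.prod_congr rfl fun i _ => ?_
    have f0 : (e13_e k).symm (⟨2 * i, by omega⟩ : Fin (2 * (k + 1))) = (i, 0) := by
      rw [Equiv.symm_apply_eq]
      exact Fin.ext rfl
    have f1 : (e13_e k).symm (⟨2 * i + 1, by omega⟩ : Fin (2 * (k + 1))) = (i, 1) := by
      rw [Equiv.symm_apply_eq]
      exact Fin.ext rfl
    unfold e13_I e13_vv
    simp only [Equiv.permCongr_apply, f0, f1, Equiv.symm_apply_apply]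
  rw [e1]
  simp only [e2, Finset.mul_sum]
  rw [Finset.sum_comm]
  rfl

/-- the value of one block -/
def e13_Gv (N : ℕ) : ℂ := -3 * π ^ 3 * e13_kk (2 * N + 3)

theorem e13_X_good (k N : ℕ) (σ : Equiv.Perm (Fin (k + 1) × Fin 2))
    (h : ∀ i, (σ (i, 0)).1 = (σ (i, 1)).1) : e13_X k N σ = e13_Gv N ^ (k + 1) := by
  have hev : Even (2 * N + 6) := ⟨N + 3, by ring⟩
  have h1 := e13_good σ h
    (fun j t => e13_I (e13_mn (e13_c k j) (e13_ty 0 t) (2 * N + 6 - e13_ty 0 t))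
      (e13_mn (e13_c k j) (e13_ty 1 t) (2 * N + 6 - e13_ty 1 t))) e13_w
    (fun τ x y => e13_I (e13_v k N τ x) (e13_v k N τ y)) (fun τ j => rfl) (by
      intro τ j
      refine e13_I_anti ?_ ?_
      · rw [e13_exp]
        exact hev
      · rw [e13_exp]
        exact hev)
  unfold e13_X
  rw [h1]
  have h2 : ∀ j : Fin (k + 1), e13_w false * e13_I (e13_mn (e13_c k j) (e13_ty 0 false) (2 * N + 6 - e13_ty 0 false))
      (e13_mn (e13_c k j) (e13_ty 1 false) (2 * N + 6 - e13_ty 1 false)) +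
      e13_w true * e13_I (e13_mn (e13_c k j) (e13_ty 0 true) (2 * N + 6 - e13_ty 0 true))
      (e13_mn (e13_c k j) (e13_ty 1 true) (2 * N + 6 - e13_ty 1 true)) = e13_Gv N := by
    intro j
    have h3 := e13_G (e13_c k j) N
    have t0 : e13_ty 0 false = 0 := rfl
    have t1 : e13_ty 1 false = 3 := rfl
    have t2 : e13_ty 0 true = 1 := rfl
    have t3 : e13_ty 1 true = 2 := rfl
    have w0 : e13_w false = 1 := rfl
    have w1 : e13_w true = -3 := rfl
    rw [t0, t1, t2, t3, w0, w1, show 2 * N + 6 - 0 = 2 * N + 6 from rfl,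
      show 2 * N + 6 - 3 = 2 * N + 3 by omega, show 2 * N + 6 - 1 = 2 * N + 5 by omega,
      show 2 * N + 6 - 2 = 2 * N + 4 by omega]
    unfold e13_Gv
    linear_combination h3
  rw [Finset.prod_congr rfl fun j _ => h2 j, Finset.prod_const, Finset.card_univ, Fintype.card_fin]

theorem e13_X_bad {k N : ℕ} {κ : ℝ} (hκ0 : 0 ≤ κ)
    (hκ : ∀ i j : Fin (k + 1), i ≠ j → |Real.cos (π * (e13_c k i - e13_c k j))| ≤ κ)
    (σ : Equiv.Perm (Fin (k + 1) × Fin 2)) (h : ¬ ∀ i, (σ (i, 0)).1 = (σ (i, 1)).1) :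
    ‖e13_X k N σ‖ ≤ e13_W k * (((π * (2 * N + 6 : ℕ)) ^ 3) ^ (k + 1) * ((1 + κ) / 2) ^ (2 * N + 1)) := by
  push Not at h
  obtain ⟨i0, hi0⟩ := h
  set A := (π * (2 * N + 6 : ℕ)) ^ 3 with hA
  have hA0 : 0 ≤ A := by positivity
  have hr : ∀ x : ℝ, |((x : ℝ) : ℂ).im| ≤ 0 := by simp
  have hcos : ∀ c d : ℝ, ∀ x : ℝ, ‖Complex.cos (π * (x - c))‖ * ‖Complex.cos (π * (x - d))‖ ≤ 1 := by
    intro c d x
    have s2 := e13_cos_St (c := c) (hr x)
    have s4 := e13_cos_St (c := d) (hr x)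
    rw [mul_zero, Real.cosh_zero] at s2 s4
    calc _ ≤ 1 * 1 := mul_le_mul s2 s4 (norm_nonneg _) zero_le_one
      _ = 1 := one_mul 1
  have hall : ∀ (τ : Fin (k + 1) → Bool) (x y : Fin (k + 1) × Fin 2),
      ‖e13_I (e13_v k N τ x) (e13_v k N τ y)‖ ≤ A := by
    intro τ x y
    have h1 := e13_I_le (n := 2 * N + 6) (L := 2 * N + 1) (μ := 1)
      (e13_exp N x.2 (τ x.1)) (by have := e13_ty_le x.2 (τ x.1); omega)
      (e13_exp N y.2 (τ y.1)) (by have := e13_ty_le y.2 (τ y.1); omega)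
      (hcos (e13_c k x.1) (e13_c k y.1))
    rw [one_pow, mul_one] at h1
    exact h1
  have hoff : ∀ (τ : Fin (k + 1) → Bool) (x y : Fin (k + 1) × Fin 2), x.1 ≠ y.1 →
      ‖e13_I (e13_v k N τ x) (e13_v k N τ y)‖ ≤ A * ((1 + κ) / 2) ^ (2 * N + 1) := by
    intro τ x y hxy
    refine e13_I_le (n := 2 * N + 6) (L := 2 * N + 1)
      (e13_exp N x.2 (τ x.1)) (by have := e13_ty_le x.2 (τ x.1); omega)
      (e13_exp N y.2 (τ y.1)) (by have := e13_ty_le y.2 (τ y.1); omega) ?_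
    intro x'
    have := e13_coscos (hr x') (hκ _ _ hxy)
    rw [mul_zero, Real.cosh_zero] at this
    exact this
  unfold e13_X
  refine (norm_sum_le _ _).trans ?_
  rw [e13_W, Finset.sum_mul]
  refine Finset.sum_le_sum fun τ _ => ?_
  rw [norm_mul]
  refine mul_le_mul_of_nonneg_left ?_ (norm_nonneg _)
  have hs : ‖((Equiv.Perm.sign σ : ℤ) : ℂ)‖ = 1 := by
    rcases Int.units_eq_one_or (Equiv.Perm.sign σ) with h | h <;> rw [h] <;> simp
  rw [norm_mul, hs, one_mul, norm_prod, ← Finset.mul_prod_erase Finset.univ _ (Finset.mem_univ i0)]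
  calc ‖e13_I (e13_v k N τ (σ (i0, 0))) (e13_v k N τ (σ (i0, 1)))‖ *
        ∏ i ∈ Finset.univ.erase i0, ‖e13_I (e13_v k N τ (σ (i, 0))) (e13_v k N τ (σ (i, 1)))‖
      ≤ (A * ((1 + κ) / 2) ^ (2 * N + 1)) * ∏ i ∈ (Finset.univ : Finset (Fin (k + 1))).erase i0, A := by
        refine mul_le_mul (hoff τ _ _ hi0) ?_ (Finset.prod_nonneg fun _ _ => norm_nonneg _) (by positivity)
        exact Finset.prod_le_prod (fun _ _ => norm_nonneg _) fun i _ => hall τ _ _
    _ = A ^ (k + 1) * ((1 + κ) / 2) ^ (2 * N + 1) := by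
        rw [Finset.prod_const, Finset.card_erase_of_mem (Finset.mem_univ _), Finset.card_univ,
          Fintype.card_fin, Nat.add_sub_cancel, pow_succ]
        ring

/-- lower bound for `GV(F)` -/
theorem e13_GV_ge (h10 : ST_E10) (h11 : ST_E11) {k N : ℕ} {κ : ℝ} (hκ0 : 0 ≤ κ)
    (hκ : ∀ i j : Fin (k + 1), i ≠ j → |Real.cos (π * (e13_c k i - e13_c k j))| ≤ κ) :
    ‖e13_Gv N‖ ^ (k + 1) ≤ ‖GVm (k + 1) (e13_F k N)‖ +
      Fintype.card (Equiv.Perm (Fin (k + 1) × Fin 2)) *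
      (e13_W k * (((π * (2 * N + 6 : ℕ)) ^ 3) ^ (k + 1) * ((1 + κ) / 2) ^ (2 * N + 1))) := by
  classical
  set Eb := e13_W k * (((π * (2 * N + 6 : ℕ)) ^ 3) ^ (k + 1) * ((1 + κ) / 2) ^ (2 * N + 1)) with hEb
  have hEb0 : 0 ≤ Eb := by
    have := e13_W_nonneg k
    positivity
  set good : Equiv.Perm (Fin (k + 1) × Fin 2) → Prop := fun σ => ∀ i, (σ (i, 0)).1 = (σ (i, 1)).1
    with hgood
  have h1 := e13_GV h10 h11 k N
  rw [← Finset.sum_filter_add_sum_filter_not Finset.univ good] at h1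
  have h2 : ∑ σ ∈ Finset.univ.filter good, e13_X k N σ
      = ((Finset.univ.filter good).card : ℂ) * e13_Gv N ^ (k + 1) := by
    rw [Finset.sum_congr rfl fun σ hσ => e13_X_good k N σ (Finset.mem_filter.1 hσ).2,
      Finset.sum_const, nsmul_eq_mul]
  have h3 : ‖∑ σ ∈ Finset.univ.filter (fun σ => ¬ good σ), e13_X k N σ‖
      ≤ Fintype.card (Equiv.Perm (Fin (k + 1) × Fin 2)) * Eb := by
    refine (norm_sum_le _ _).trans ?_
    refine (Finset.sum_le_sum fun σ hσ =>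
      e13_X_bad hκ0 hκ σ (Finset.mem_filter.1 hσ).2).trans ?_
    rw [Finset.sum_const, nsmul_eq_mul]
    refine mul_le_mul_of_nonneg_right ?_ hEb0
    exact_mod_cast (Finset.card_filter_le _ _).trans (le_of_eq Finset.card_univ)
  have h4 : 1 ≤ (Finset.univ.filter good).card := by
    refine Finset.card_pos.2 ⟨1, Finset.mem_filter.2 ⟨Finset.mem_univ _, fun i => rfl⟩⟩
  have h5 : ‖e13_Gv N‖ ^ (k + 1) ≤ ‖((Finset.univ.filter good).card : ℂ) * e13_Gv N ^ (k + 1)‖ := by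
    rw [norm_mul, norm_pow, Complex.norm_natCast]
    have : (1 : ℝ) ≤ (Finset.univ.filter good).card := by exact_mod_cast h4
    exact le_mul_of_one_le_left (by positivity) this
  have h6 : ((Finset.univ.filter good).card : ℂ) * e13_Gv N ^ (k + 1)
      = GVm (k + 1) (e13_F k N) - ∑ σ ∈ Finset.univ.filter (fun σ => ¬ good σ), e13_X k N σ := by
    rw [h1, h2]
    ring
  rw [h6] at h5
  exact h5.trans ((norm_sub_le _ _).trans (add_le_add le_rfl h3))

theorem e13_Gv_ge (N : ℕ) : 1 / ((2 * N + 6 : ℕ) : ℝ) ≤ ‖e13_Gv N‖ := by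
  unfold e13_Gv
  have h0 := e13_kk_ge (2 * N + 3)
  have hk0 : 0 ≤ e13_kk (2 * N + 3) := le_trans (by positivity) h0
  have h1 : ‖(-3 * (π : ℂ) ^ 3 * (e13_kk (2 * N + 3) : ℂ))‖ = 3 * π ^ 3 * e13_kk (2 * N + 3) := by
    rw [norm_mul, norm_mul, norm_neg, norm_pow, Complex.norm_real, Complex.norm_real,
      Real.norm_eq_abs, Real.norm_eq_abs, abs_of_pos Real.pi_pos, abs_of_nonneg hk0]
    simp
  rw [h1]
  have hpi : 1 ≤ π ^ 3 := one_le_pow₀ (by linarith [Real.pi_gt_three])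
  calc 1 / ((2 * N + 6 : ℕ) : ℝ) ≤ 3 * (1 / (2 * ((2 * N + 3 : ℕ) : ℝ) + 1)) := by
        push_cast
        rw [mul_one_div, div_le_div_iff₀ (by positivity) (by positivity)]
        have : (0 : ℝ) ≤ N := Nat.cast_nonneg N
        linarith
    _ ≤ 3 * π ^ 3 * (1 / (2 * ((2 * N + 3 : ℕ) : ℝ) + 1)) := by
        have : 0 ≤ 1 / (2 * ((2 * N + 3 : ℕ) : ℝ) + 1) := by positivity
        nlinarith
    _ ≤ 3 * π ^ 3 * e13_kk (2 * N + 3) :=
        mul_le_mul_of_nonneg_left h0 (by positivity)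

/-! ### conclusion -/

theorem e13_limit {K θ : ℝ} {p : ℕ} (h0 : 0 ≤ θ) (h1 : θ < 1)
    (h : ∀ N : ℕ, 1 ≤ K * ((2 * N + 6 : ℕ) : ℝ) ^ p * θ ^ (2 * N + 1)) : False := by
  have hK : 0 ≤ K := by
    by_contra hK
    have := h 0
    push Not at hK
    have h2 : K * ((2 * 0 + 6 : ℕ) : ℝ) ^ p * θ ^ (2 * 0 + 1) ≤ 0 :=
      mul_nonpos_of_nonpos_of_nonneg (mul_nonpos_of_nonpos_of_nonneg hK.le (by positivity)) (by positivity)
    linarith
  have ht := tendsto_pow_const_mul_const_pow_of_abs_lt_one p (show |θ| < 1 by rwa [abs_of_nonneg h0])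
  have ht2 := ht.const_mul (K * 8 ^ p)
  rw [mul_zero] at ht2
  have hev := ht2.eventually (gt_mem_nhds one_pos)
  obtain ⟨N, hN⟩ := (hev.and (Filter.eventually_ge_atTop 1)).exists
  obtain ⟨hN1, hN2⟩ := hN
  have h3 := h N
  have h4 : ((2 * N + 6 : ℕ) : ℝ) ^ p ≤ (8 * (N : ℝ)) ^ p := by
    refine pow_le_pow_left₀ (by positivity) ?_ p
    have : (1 : ℝ) ≤ N := by exact_mod_cast hN2
    push_cast
    linarith
  have h5 : θ ^ (2 * N + 1) ≤ θ ^ N := pow_le_pow_of_le_one h0 h1.le (by omega)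
  have h6 : K * ((2 * N + 6 : ℕ) : ℝ) ^ p * θ ^ (2 * N + 1) ≤ K * (8 * (N : ℝ)) ^ p * θ ^ N :=
    mul_le_mul (mul_le_mul_of_nonneg_left h4 hK) h5 (by positivity) (by positivity)
  have h7 : K * (8 * (N : ℝ)) ^ p * θ ^ N = K * 8 ^ p * ((N : ℝ) ^ p * θ ^ N) := by
    rw [mul_pow]
    ring
  rw [h7] at h6
  linarith

theorem st_E13 (h1 : ST_E1) (h10 : ST_E10) (h11 : ST_E11) (h12 : ST_E12) : ST_E13 := by
  intro k
  obtain ⟨κ, hκ0, hκ1, hκ⟩ := e13_kappa k
  -- choice of the width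
  have hcont : Continuous fun s : ℝ => (Real.cosh (2 * π * s) + κ) / 2 * Real.cosh (π * s) ^ (2 * k) :=
    (((Real.continuous_cosh.comp (continuous_const.mul continuous_id)).add continuous_const).div_const 2).mul
      ((Real.continuous_cosh.comp (continuous_const.mul continuous_id)).pow (2 * k))
  have h00 : (Real.cosh (2 * π * 0) + κ) / 2 * Real.cosh (π * 0) ^ (2 * k) < 1 := by
    rw [mul_zero, mul_zero, Real.cosh_zero, one_pow, mul_one]
    linarith
  have hev := (hcont.tendsto 0).eventually (gt_mem_nhds h00)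
  rw [Metric.eventually_nhds_iff] at hev
  obtain ⟨s0, hs0, hS⟩ := hev
  refine ⟨s0, hs0, ?_⟩
  rintro s hs hss ⟨β, hβ, hβ2⟩
  have hθ1 : (Real.cosh (2 * π * s) + κ) / 2 * Real.cosh (π * s) ^ (2 * k) < 1 := by
    apply hS
    rw [Real.dist_eq, sub_zero, abs_of_pos hs]
    exact hss
  obtain ⟨Cβ, hCβ, hbd⟩ := hβ.bdd
  set R := Real.cosh (π * s) with hR
  set μ := (Real.cosh (2 * π * s) + κ) / 2 with hμ
  have hR1 : 1 ≤ R := Real.one_le_cosh _
  have hR0 : 0 ≤ R := zero_le_one.trans hR1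
  have hμ0 : 0 ≤ μ := by
    have := Real.cosh_pos (2 * π * s)
    positivity
  have hW0 := e13_W_nonneg k
  set θ := max (μ * R ^ (2 * k)) ((1 + κ) / 2) with hθ
  have hθ0 : 0 ≤ θ := le_max_of_le_left (by positivity)
  have hθlt : θ < 1 := max_lt hθ1 (by linarith)
  set P : ℝ := (Fintype.card (Equiv.Perm (Fin (k + 1) × Fin 2)) : ℝ) with hP
  have hP0 : 0 ≤ P := Nat.cast_nonneg _
  set K1 := P * (e13_W k * (π ^ 3) ^ (k + 1)) with hK1
  set K2 := Cβ * ((2 * k + 2) * ((2 * k + 2) * (e13_W k *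
      (((2 * k + 1).factorial : ℝ) * (2 * π * (R ^ 5) ^ 2 * R ^ (10 * k)))))) with hK2
  have hK10 : 0 ≤ K1 := by positivity
  have hK20 : 0 ≤ K2 := by positivity
  refine e13_limit (K := K1 + K2) (θ := θ) (p := 4 * (k + 1)) hθ0 hθlt fun N => ?_
  set n : ℝ := ((2 * N + 6 : ℕ) : ℝ) with hn
  have hn1 : 1 ≤ n := by
    rw [hn]
    push_cast
    have : (0 : ℝ) ≤ N := Nat.cast_nonneg N
    linarith
  have hn0 : 0 < n := zero_lt_one.trans_le hn1
  -- upper bound from exactness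
  have hBOF : BO (2 * k + 2) (St (s + 1)) (e13_F k N) := e13_F_BO k N (s + 1)
  have hval : GVm (k + 1) (e13_F k N) = β (dd (2 * k + 1) (e13_F k N)) :=
    hβ2 (s + 1) (by linarith) _ hBOF
  have hBOdd : BO (2 * k + 1) (St s) (dd (2 * k + 1) (e13_F k N)) := by
    refine (h1 (2 * k + 1) (St s) (St (s + 1)) 1 (isOpen_St s) (isOpen_St (s + 1)) ?_ one_pos ?_ _ hBOF).1
    · intro z
      simp [St]
    · intro z hz x hx
      rw [Metric.mem_ball, dist_eq_norm] at hx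
      have h3 := Complex.abs_im_le_norm (x - z)
      have h4 : |z.im| < s := hz
      change |x.im| < s + 1
      have h5 : x.im = z.im + (x - z).im := by simp
      rw [h5]
      calc |z.im + (x - z).im| ≤ |z.im| + |(x - z).im| := abs_add_le _ _
        _ < s + 1 := by linarith
  set D := (2 * k + 2) * ((2 * k + 2) * (e13_W k *
      (((2 * k + 1).factorial : ℝ) * (2 * (π * n) *
      (μ ^ (2 * N + 1) * (R ^ 5) ^ 2) * (R ^ (2 * N + 6)) ^ (2 * k))))) with hD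
  have hD0 : 0 ≤ D := by positivity
  have hup : ‖GVm (k + 1) (e13_F k N)‖ ≤ Cβ * D := by
    rw [hval]
    exact hbd _ hBOdd D (fun z hz => e13_dd_le h12 hκ0 hκ hz) hD0
  have hD2 : Cβ * D ≤ K2 * n * θ ^ (2 * N + 1) := by
    have e1 : μ ^ (2 * N + 1) * (R ^ (2 * N + 6)) ^ (2 * k)
        = (μ * R ^ (2 * k)) ^ (2 * N + 1) * R ^ (10 * k) := by
      rw [mul_pow, ← pow_mul, ← pow_mul, mul_assoc, ← pow_add]
      congr 2
      ring
    have e2 : Cβ * D = K2 * n * (μ * R ^ (2 * k)) ^ (2 * N + 1) := by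
      rw [hD, hK2]
      calc _ = Cβ * ((2 * k + 2) * ((2 * k + 2) * (e13_W k *
            (((2 * k + 1).factorial : ℝ) * (2 * (π * n) * (R ^ 5) ^ 2 *
            (μ ^ (2 * N + 1) * (R ^ (2 * N + 6)) ^ (2 * k))))))) := by ring
        _ = _ := by rw [e1]; ring
    rw [e2]
    refine mul_le_mul_of_nonneg_left ?_ (by positivity)
    exact pow_le_pow_left₀ (by positivity) (le_max_left _ _) _
  -- lower bound
  have hlow := e13_GV_ge h10 h11 (k := k) (N := N) hκ0 hκ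
  have hG := e13_Gv_ge N
  have hGk : (1 / n) ^ (k + 1) ≤ ‖e13_Gv N‖ ^ (k + 1) := pow_le_pow_left₀ (by positivity) hG _
  have hE : P * (e13_W k * (((π * n) ^ 3) ^ (k + 1) * ((1 + κ) / 2) ^ (2 * N + 1)))
      ≤ K1 * (n ^ 3) ^ (k + 1) * θ ^ (2 * N + 1) := by
    have e1 : P * (e13_W k * (((π * n) ^ 3) ^ (k + 1) * ((1 + κ) / 2) ^ (2 * N + 1)))
        = K1 * (n ^ 3) ^ (k + 1) * ((1 + κ) / 2) ^ (2 * N + 1) := by
      rw [hK1, mul_pow, mul_pow]
      ring
    rw [e1]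
    refine mul_le_mul_of_nonneg_left ?_ (by positivity)
    exact pow_le_pow_left₀ (by positivity) (le_max_right _ _) _
  have hsum : (1 / n) ^ (k + 1) ≤ K2 * n * θ ^ (2 * N + 1) + K1 * (n ^ 3) ^ (k + 1) * θ ^ (2 * N + 1) :=
    hGk.trans (hlow.trans (add_le_add (hup.trans hD2) hE))
  have hmul := mul_le_mul_of_nonneg_left hsum (by positivity : 0 ≤ n ^ (k + 1))
  have e3 : n ^ (k + 1) * (1 / n) ^ (k + 1) = 1 := by
    rw [← mul_pow, mul_one_div_cancel hn0.ne', one_pow]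
  rw [e3] at hmul
  refine hmul.trans ?_
  have hpw1 : n ^ (k + 1) * n ≤ n ^ (4 * (k + 1)) := by
    rw [← pow_succ]
    exact pow_le_pow_right₀ hn1 (by omega)
  have hpw2 : n ^ (k + 1) * (n ^ 3) ^ (k + 1) = n ^ (4 * (k + 1)) := by
    rw [← pow_mul, ← pow_add]
    congr 1
    ring
  have hθN : 0 ≤ θ ^ (2 * N + 1) := by positivity
  calc n ^ (k + 1) * (K2 * n * θ ^ (2 * N + 1) + K1 * (n ^ 3) ^ (k + 1) * θ ^ (2 * N + 1))
      = K2 * θ ^ (2 * N + 1) * (n ^ (k + 1) * n) + K1 * θ ^ (2 * N + 1) * (n ^ (k + 1) * (n ^ 3) ^ (k + 1)) := by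
        ring
    _ ≤ K2 * θ ^ (2 * N + 1) * n ^ (4 * (k + 1)) + K1 * θ ^ (2 * N + 1) * n ^ (4 * (k + 1)) := by
        rw [hpw2]
        exact add_le_add (mul_le_mul_of_nonneg_left hpw1 (by positivity)) le_rfl
    _ = (K1 + K2) * n ^ (4 * (k + 1)) * θ ^ (2 * N + 1) := by ring

end

end Pool.Agent.Helper67.DO
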