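import Pool.Agent.Helper67.DO.StmtsE1

set_option autoImplicit false

/-!
# Module E13 of MP_d07457_gt: the test functions
-/

namespace Pool.Agent.Helper67.DO

open scoped BigOperators Real
open MeasureTheory

noncomputable section

/-- monomials in `sin π(z-c)` and `cos π(z-c)` -/
def e13_mn (c : ℝ) (p q : ℕ) (z : ℂ) : ℂ :=
  Complex.sin (π * (z - c)) ^ p * Complex.cos (π * (z - c)) ^ q

/-- first derivative of the monomial -/
def e13_d1 (c : ℝ) (p q : ℕ) (z : ℂ) : ℂ :=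
  π * (p * e13_mn c (p - 1) (q + 1) z - q * e13_mn c (p + 1) (q - 1) z)

/-- second derivative of the monomial -/
def e13_d2 (c : ℝ) (p q : ℕ) (z : ℂ) : ℂ :=
  π * (p * e13_d1 c (p - 1) (q + 1) z - q * e13_d1 c (p + 1) (q - 1) z)

theorem e13_mn_deriv (c : ℝ) (p q : ℕ) (z : ℂ) :
    HasDerivAt (e13_mn c p q) (e13_d1 c p q z) z := by
  have h0 : HasDerivAt (fun z : ℂ => (π : ℂ) * (z - c)) π z := by
    simpa using ((hasDerivAt_id z).sub_const (c : ℂ)).const_mul (π : ℂ)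
  have hs := h0.csin
  have hc := h0.ccos
  have h1 := (hs.fun_pow p).mul (hc.fun_pow q)
  refine h1.congr_deriv ?_
  unfold e13_d1 e13_mn
  ring

theorem e13_d1_deriv (c : ℝ) (p q : ℕ) (z : ℂ) :
    HasDerivAt (e13_d1 c p q) (e13_d2 c p q z) z := by
  have h1 := ((e13_mn_deriv c (p - 1) (q + 1) z).const_mul (p : ℂ)).sub
    ((e13_mn_deriv c (p + 1) (q - 1) z).const_mul (q : ℂ))
  exact h1.const_mul (π : ℂ)

theorem e13_deriv (c : ℝ) (p q : ℕ) : deriv (e13_mn c p q) = e13_d1 c p q :=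
  funext fun z => (e13_mn_deriv c p q z).deriv

theorem e13_deriv2 (c : ℝ) (p q : ℕ) : iteratedDeriv 2 (e13_mn c p q) = e13_d2 c p q := by
  rw [iteratedDeriv_succ, iteratedDeriv_one, e13_deriv]
  exact funext fun z => (e13_d1_deriv c p q z).deriv

theorem e13_diff (c : ℝ) (p q : ℕ) : Differentiable ℂ (e13_mn c p q) :=
  fun z => (e13_mn_deriv c p q z).differentiableAt

theorem e13_mn_per (c : ℝ) (p q : ℕ) (z : ℂ) :
    e13_mn c p q (z + 1) = (-1) ^ (p + q) * e13_mn c p q z := by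
  unfold e13_mn
  have e : (π : ℂ) * (z + 1 - c) = π * (z - c) + π := by ring
  rw [e, Complex.sin_add_pi, Complex.cos_add_pi, neg_pow, neg_pow (Complex.cos _), pow_add]
  ring

theorem e13_per {c : ℝ} {p q : ℕ} (h : Even (p + q)) (z : ℂ) :
    e13_mn c p q (z + 1) = e13_mn c p q z := by
  rw [e13_mn_per, h.neg_one_pow, one_mul]

/-- periodicity of the derivative -/
theorem e13_d1_per {c : ℝ} {p q : ℕ} (h : Even (p + q)) (z : ℂ) :
    e13_d1 c p q (z + 1) = e13_d1 c p q z := by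
  have h1 : HasDerivAt (fun w => e13_mn c p q (w + 1)) (e13_d1 c p q (z + 1)) z :=
    (e13_mn_deriv c p q (z + 1)).comp_add_const z 1
  have h2 : (fun w => e13_mn c p q (w + 1)) = e13_mn c p q := funext fun w => e13_per h w
  rw [h2] at h1
  exact h1.unique (e13_mn_deriv c p q z)

/-! ### bounds -/

theorem e13_sin_le (w : ℂ) : ‖Complex.sin w‖ ≤ Real.cosh w.im := by
  have h : Complex.sin w = (Complex.exp (-w * Complex.I) - Complex.exp (w * Complex.I)) * Complex.I / 2 := rfl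
  rw [h, norm_div, norm_mul, Complex.norm_I, mul_one, Complex.norm_two, Real.cosh_eq]
  gcongr
  refine (norm_sub_le _ _).trans ?_
  rw [Complex.norm_exp, Complex.norm_exp]
  simp

theorem e13_cos_le (w : ℂ) : ‖Complex.cos w‖ ≤ Real.cosh w.im := by
  have h : Complex.cos w = (Complex.exp (w * Complex.I) + Complex.exp (-w * Complex.I)) / 2 := rfl
  rw [h, norm_div, Complex.norm_two, Real.cosh_eq]
  gcongr
  refine (norm_add_le _ _).trans ?_
  rw [Complex.norm_exp, Complex.norm_exp]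
  simp [add_comm]

theorem e13_cosh_mono {x s : ℝ} (h : |x| ≤ s) : Real.cosh x ≤ Real.cosh s := by
  rw [Real.cosh_le_cosh]
  exact h.trans (le_abs_self s)

theorem e13_im (c : ℝ) (z : ℂ) : ((π : ℂ) * (z - c)).im = π * z.im := by
  simp

theorem e13_sin_St {c s : ℝ} {z : ℂ} (hz : |z.im| ≤ s) :
    ‖Complex.sin (π * (z - c))‖ ≤ Real.cosh (π * s) := by
  refine (e13_sin_le _).trans (e13_cosh_mono ?_)
  rw [e13_im, abs_mul, abs_of_pos Real.pi_pos]
  exact mul_le_mul_of_nonneg_left hz Real.pi_pos.le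

theorem e13_cos_St {c s : ℝ} {z : ℂ} (hz : |z.im| ≤ s) :
    ‖Complex.cos (π * (z - c))‖ ≤ Real.cosh (π * s) := by
  refine (e13_cos_le _).trans (e13_cosh_mono ?_)
  rw [e13_im, abs_mul, abs_of_pos Real.pi_pos]
  exact mul_le_mul_of_nonneg_left hz Real.pi_pos.le

/-- product of cosines at different centres, at two different points of a strip is not needed:
same point -/
theorem e13_coscos {c d s κ : ℝ} {z : ℂ} (hz : |z.im| ≤ s) (hκ : |Real.cos (π * (c - d))| ≤ κ) :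
    ‖Complex.cos (π * (z - c))‖ * ‖Complex.cos (π * (z - d))‖ ≤ (Real.cosh (2 * π * s) + κ) / 2 := by
  rw [← norm_mul]
  have e : Complex.cos (π * (z - c)) * Complex.cos (π * (z - d))
      = (Complex.cos (π * (z - c) + π * (z - d)) + Complex.cos (π * (z - d) - π * (z - c))) / 2 := by
    rw [Complex.cos_add, Complex.cos_sub]
    ring
  rw [e, norm_div, Complex.norm_two]
  gcongr
  refine (norm_add_le _ _).trans (add_le_add ?_ ?_)
  · refine (e13_cos_le _).trans (e13_cosh_mono ?_)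
    have : ((π : ℂ) * (z - c) + π * (z - d)).im = 2 * π * z.im := by
      rw [Complex.add_im, e13_im, e13_im]
      ring
    rw [this, abs_mul, abs_of_pos (by positivity : (0 : ℝ) < 2 * π)]
    exact mul_le_mul_of_nonneg_left hz (by positivity)
  · have : (π : ℂ) * (z - d) - π * (z - c) = ((π * (c - d) : ℝ) : ℂ) := by
      push_cast
      ring
    rw [this, ← Complex.ofReal_cos, Complex.norm_real, Real.norm_eq_abs]
    exact hκ

/-- one term -/
theorem e13_term {c : ℝ} {n L k p q : ℕ} (h : k ≠ 0 → p + q = n ∧ L ≤ q) {z : ℂ} {R : ℝ}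
    (hs : ‖Complex.sin (π * (z - c))‖ ≤ R) (hc : ‖Complex.cos (π * (z - c))‖ ≤ R) :
    ‖(k : ℂ) * e13_mn c p q z‖ ≤ k * (‖Complex.cos (π * (z - c))‖ ^ L * R ^ (n - L)) := by
  by_cases hk : k = 0
  · subst hk
    simp
  obtain ⟨h1, h2⟩ := h hk
  have hR : 0 ≤ R := (norm_nonneg _).trans hs
  rw [norm_mul, Complex.norm_natCast]
  refine mul_le_mul_of_nonneg_left ?_ (Nat.cast_nonneg k)
  unfold e13_mn
  rw [norm_mul, norm_pow, norm_pow]
  obtain ⟨r, rfl⟩ := Nat.exists_eq_add_of_le h2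
  have e1 : n - L = p + r := by omega
  rw [e1, pow_add (‖Complex.cos (π * (z - c))‖), pow_add R]
  calc ‖Complex.sin (π * (z - c))‖ ^ p * (‖Complex.cos (π * (z - c))‖ ^ L * ‖Complex.cos (π * (z - c))‖ ^ r)
      = ‖Complex.cos (π * (z - c))‖ ^ L *
        (‖Complex.sin (π * (z - c))‖ ^ p * ‖Complex.cos (π * (z - c))‖ ^ r) := by ring
    _ ≤ ‖Complex.cos (π * (z - c))‖ ^ L * (R ^ p * R ^ r) := by
      refine mul_le_mul_of_nonneg_left ?_ (by positivity)
      exact mul_le_mul (pow_le_pow_left₀ (norm_nonneg _) hs p) (pow_le_pow_left₀ (norm_nonneg _) hc r)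
        (by positivity) (by positivity)

theorem e13_mn_le {c : ℝ} {n L p q : ℕ} (h1 : p + q = n) (h2 : L ≤ q) {z : ℂ} {R : ℝ}
    (hs : ‖Complex.sin (π * (z - c))‖ ≤ R) (hc : ‖Complex.cos (π * (z - c))‖ ≤ R) :
    ‖e13_mn c p q z‖ ≤ ‖Complex.cos (π * (z - c))‖ ^ L * R ^ (n - L) := by
  have := e13_term (k := 1) (fun _ => ⟨h1, h2⟩) hs hc
  simpa using this

theorem e13_d1_le {c : ℝ} {n L p q : ℕ} (h1 : p + q = n) (h2 : L + 1 ≤ q) {z : ℂ} {R : ℝ}
    (hs : ‖Complex.sin (π * (z - c))‖ ≤ R) (hc : ‖Complex.cos (π * (z - c))‖ ≤ R) :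
    ‖e13_d1 c p q z‖ ≤ π * n * (‖Complex.cos (π * (z - c))‖ ^ L * R ^ (n - L)) := by
  unfold e13_d1
  rw [norm_mul, Complex.norm_real, Real.norm_eq_abs, abs_of_pos Real.pi_pos, mul_assoc]
  refine mul_le_mul_of_nonneg_left ?_ Real.pi_pos.le
  refine (norm_sub_le _ _).trans ?_
  have t1 := e13_term (c := c) (n := n) (L := L) (k := p) (p := p - 1) (q := q + 1)
    (fun hp => ⟨by omega, by omega⟩) hs hc
  have t2 := e13_term (c := c) (n := n) (L := L) (k := q) (p := p + 1) (q := q - 1)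
    (fun hp => ⟨by omega, by omega⟩) hs hc
  refine (add_le_add t1 t2).trans (le_of_eq ?_)
  rw [← h1]
  push_cast
  ring

theorem e13_d2_le {c : ℝ} {n L p q : ℕ} (h1 : p + q = n) (h2 : L + 2 ≤ q) {z : ℂ} {R : ℝ}
    (hs : ‖Complex.sin (π * (z - c))‖ ≤ R) (hc : ‖Complex.cos (π * (z - c))‖ ≤ R) :
    ‖e13_d2 c p q z‖ ≤ π * n * (π * n) * (‖Complex.cos (π * (z - c))‖ ^ L * R ^ (n - L)) := by
  have hR : 0 ≤ R := (norm_nonneg _).trans hs
  set W := ‖Complex.cos (π * (z - c))‖ ^ L * R ^ (n - L) with hW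
  have hW0 : 0 ≤ W := by positivity
  have hn0 : (0 : ℝ) ≤ π * n := by positivity
  have t1 : ‖(p : ℂ) * e13_d1 c (p - 1) (q + 1) z‖ ≤ p * (π * n * W) := by
    by_cases hp : p = 0
    · subst hp
      simp
    · rw [norm_mul, Complex.norm_natCast]
      exact mul_le_mul_of_nonneg_left (e13_d1_le (by omega) (by omega) hs hc) (Nat.cast_nonneg p)
  have t2 : ‖(q : ℂ) * e13_d1 c (p + 1) (q - 1) z‖ ≤ q * (π * n * W) := by
    rw [norm_mul, Complex.norm_natCast]
    exact mul_le_mul_of_nonneg_left (e13_d1_le (by omega) (by omega) hs hc) (Nat.cast_nonneg q)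
  unfold e13_d2
  rw [norm_mul, Complex.norm_real, Real.norm_eq_abs, abs_of_pos Real.pi_pos]
  calc π * ‖(p : ℂ) * e13_d1 c (p - 1) (q + 1) z - q * e13_d1 c (p + 1) (q - 1) z‖
      ≤ π * (p * (π * n * W) + q * (π * n * W)) :=
        mul_le_mul_of_nonneg_left ((norm_sub_le _ _).trans (add_le_add t1 t2)) Real.pi_pos.le
    _ = π * n * (π * n) * W := by
      rw [← h1]
      push_cast
      ring

/-- the brackets of different blocks are small -/
theorem e13_brk_le {c d : ℝ} {n L p q p' q' : ℕ} (h1 : p + q = n) (h2 : L + 1 ≤ q)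
    (h1' : p' + q' = n) (h2' : L + 1 ≤ q') {z : ℂ} {R μ : ℝ}
    (hs : ‖Complex.sin (π * (z - c))‖ ≤ R) (hc : ‖Complex.cos (π * (z - c))‖ ≤ R)
    (hs' : ‖Complex.sin (π * (z - d))‖ ≤ R) (hc' : ‖Complex.cos (π * (z - d))‖ ≤ R)
    (hμ : ‖Complex.cos (π * (z - c))‖ * ‖Complex.cos (π * (z - d))‖ ≤ μ) :
    ‖brk (e13_mn c p q) (e13_mn d p' q') z‖ ≤ 2 * (π * n) * (μ ^ L * (R ^ (n - L)) ^ 2) := by
  have hR : 0 ≤ R := (norm_nonneg _).trans hs
  have hμ0 : 0 ≤ μ := (mul_nonneg (norm_nonneg _) (norm_nonneg _)).trans hμ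
  have hn0 : (0 : ℝ) ≤ π * n := by positivity
  unfold brk
  rw [e13_deriv, e13_deriv]
  set a := ‖Complex.cos (π * (z - c))‖ with ha
  set b := ‖Complex.cos (π * (z - d))‖ with hb
  have ha0 : 0 ≤ a := norm_nonneg _
  have hb0 : 0 ≤ b := norm_nonneg _
  have hab : (a * b) ^ L ≤ μ ^ L := pow_le_pow_left₀ (mul_nonneg ha0 hb0) hμ L
  have m1 := e13_mn_le h1 (by omega : L ≤ q) hs hc
  have m2 := e13_mn_le h1' (by omega : L ≤ q') hs' hc'
  have m3 := e13_d1_le h1 h2 hs hc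
  have m4 := e13_d1_le h1' h2' hs' hc'
  have key : ∀ x y : ℂ, ‖x‖ ≤ a ^ L * R ^ (n - L) → ‖y‖ ≤ π * n * (b ^ L * R ^ (n - L)) →
      ‖x * y‖ ≤ π * n * (μ ^ L * (R ^ (n - L)) ^ 2) := by
    intro x y hx hy
    rw [norm_mul]
    calc ‖x‖ * ‖y‖ ≤ (a ^ L * R ^ (n - L)) * (π * n * (b ^ L * R ^ (n - L))) :=
          mul_le_mul hx hy (norm_nonneg _) (by positivity)
      _ = π * n * ((a * b) ^ L * (R ^ (n - L)) ^ 2) := by ring
      _ ≤ π * n * (μ ^ L * (R ^ (n - L)) ^ 2) := by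
        refine mul_le_mul_of_nonneg_left ?_ hn0
        exact mul_le_mul_of_nonneg_right hab (by positivity)
  have key' : ∀ x y : ℂ, ‖x‖ ≤ b ^ L * R ^ (n - L) → ‖y‖ ≤ π * n * (a ^ L * R ^ (n - L)) →
      ‖x * y‖ ≤ π * n * (μ ^ L * (R ^ (n - L)) ^ 2) := by
    intro x y hx hy
    rw [norm_mul]
    calc ‖x‖ * ‖y‖ ≤ (b ^ L * R ^ (n - L)) * (π * n * (a ^ L * R ^ (n - L))) :=
          mul_le_mul hx hy (norm_nonneg _) (by positivity)
      _ = π * n * ((a * b) ^ L * (R ^ (n - L)) ^ 2) := by ring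
      _ ≤ π * n * (μ ^ L * (R ^ (n - L)) ^ 2) := by
        refine mul_le_mul_of_nonneg_left ?_ hn0
        exact mul_le_mul_of_nonneg_right hab (by positivity)
  refine (norm_sub_le _ _).trans ?_
  calc _ ≤ π * n * (μ ^ L * (R ^ (n - L)) ^ 2) + π * n * (μ ^ L * (R ^ (n - L)) ^ 2) :=
        add_le_add (key _ _ m1 m4) (key' _ _ m2 m3)
    _ = _ := by ring

/-! ### integrals over the circle -/

/-- the Godbillon-Vey pairing -/
def e13_I (f g : ℂ → ℂ) : ℂ := ∫ x in (0 : ℝ)..1, deriv f (x : ℂ) * iteratedDeriv 2 g (x : ℂ)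

theorem e13_cont_d1 (c : ℝ) (p q : ℕ) : Continuous (e13_d1 c p q) :=
  continuous_iff_continuousAt.2 fun z => (e13_d1_deriv c p q z).continuousAt

theorem e13_cont_mn (c : ℝ) (p q : ℕ) : Continuous (e13_mn c p q) :=
  continuous_iff_continuousAt.2 fun z => (e13_mn_deriv c p q z).continuousAt

theorem e13_cont_d2 (c : ℝ) (p q : ℕ) : Continuous (e13_d2 c p q) := by
  unfold e13_d2
  exact continuous_const.mul ((continuous_const.mul (e13_cont_d1 _ _ _)).sub
    (continuous_const.mul (e13_cont_d1 _ _ _)))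

theorem e13_I_eq (c d : ℝ) (p q p' q' : ℕ) : e13_I (e13_mn c p q) (e13_mn d p' q')
    = ∫ x in (0 : ℝ)..1, e13_d1 c p q x * e13_d2 d p' q' x := by
  unfold e13_I
  rw [e13_deriv, e13_deriv2]

theorem e13_I_anti {c d : ℝ} {p q p' q' : ℕ} (h : Even (p + q)) (h' : Even (p' + q')) :
    e13_I (e13_mn c p q) (e13_mn d p' q') = - e13_I (e13_mn d p' q') (e13_mn c p q) := by
  rw [eq_neg_iff_add_eq_zero, e13_I_eq, e13_I_eq]
  have hc1 : Continuous fun x : ℝ => e13_d1 c p q x * e13_d2 d p' q' x :=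
    ((e13_cont_d1 _ _ _).comp Complex.continuous_ofReal).mul
      ((e13_cont_d2 _ _ _).comp Complex.continuous_ofReal)
  have hc2 : Continuous fun x : ℝ => e13_d1 d p' q' x * e13_d2 c p q x :=
    ((e13_cont_d1 _ _ _).comp Complex.continuous_ofReal).mul
      ((e13_cont_d2 _ _ _).comp Complex.continuous_ofReal)
  rw [← intervalIntegral.integral_add (hc1.intervalIntegrable 0 1) (hc2.intervalIntegrable 0 1)]
  have hd : ∀ x ∈ Set.uIcc (0 : ℝ) 1, HasDerivAt (fun x : ℝ => e13_d1 c p q x * e13_d1 d p' q' x)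
      (e13_d1 c p q x * e13_d2 d p' q' x + e13_d1 d p' q' x * e13_d2 c p q x) x := by
    intro x _
    have h1 := ((e13_d1_deriv c p q (x : ℂ)).mul (e13_d1_deriv d p' q' (x : ℂ))).comp_ofReal
    refine h1.congr_deriv ?_
    ring
  rw [intervalIntegral.integral_eq_sub_of_hasDerivAt hd ((hc1.add hc2).intervalIntegrable 0 1)]
  have e1 := e13_d1_per (c := c) h 0
  have e2 := e13_d1_per (c := d) h' 0
  rw [zero_add] at e1 e2
  push_cast
  rw [e1, e2, sub_self]

theorem e13_I_le {c d : ℝ} {n L p q p' q' : ℕ} (h1 : p + q = n) (h2 : L + 2 ≤ q)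
    (h1' : p' + q' = n) (h2' : L + 2 ≤ q') {μ : ℝ}
    (hμ : ∀ x : ℝ, ‖Complex.cos (π * (x - c))‖ * ‖Complex.cos (π * (x - d))‖ ≤ μ) :
    ‖e13_I (e13_mn c p q) (e13_mn d p' q')‖ ≤ (π * n) ^ 3 * μ ^ L := by
  rw [e13_I_eq]
  have hn0 : (0 : ℝ) ≤ π * n := by positivity
  have hb : ∀ x ∈ Set.uIoc (0 : ℝ) 1, ‖e13_d1 c p q x * e13_d2 d p' q' x‖ ≤ (π * n) ^ 3 * μ ^ L := by
    intro x _
    have hr : |((x : ℝ) : ℂ).im| ≤ 0 := by simp
    have s1 := e13_sin_St (c := c) hr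
    have s2 := e13_cos_St (c := c) hr
    have s3 := e13_sin_St (c := d) hr
    have s4 := e13_cos_St (c := d) hr
    rw [mul_zero, Real.cosh_zero] at s1 s2 s3 s4
    have m1 := e13_d1_le h1 (by omega : L + 1 ≤ q) s1 s2
    have m2 := e13_d2_le h1' h2' s3 s4
    rw [one_pow, mul_one] at m1 m2
    rw [norm_mul]
    calc _ ≤ (π * n * ‖Complex.cos (π * (x - c))‖ ^ L) *
          (π * n * (π * n) * ‖Complex.cos (π * (x - d))‖ ^ L) :=
          mul_le_mul m1 m2 (norm_nonneg _) (by positivity)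
      _ = (π * n) ^ 3 * (‖Complex.cos (π * (x - c))‖ * ‖Complex.cos (π * (x - d))‖) ^ L := by ring
      _ ≤ (π * n) ^ 3 * μ ^ L := by
        refine mul_le_mul_of_nonneg_left ?_ (by positivity)
        exact pow_le_pow_left₀ (by positivity) (hμ x) L
  have := intervalIntegral.norm_integral_le_of_norm_le_const hb
  simpa using this

/-- the values of `∫ cos^(2j)` -/
def e13_kk : ℕ → ℝ
  | 0 => 1
  | (j + 1) => (2 * j + 1) / (2 * j + 2) * e13_kk j

theorem e13_kk_ge (j : ℕ) : 1 / (2 * j + 1 : ℝ) ≤ e13_kk j := by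
  induction j with
  | zero => simp [e13_kk]
  | succ j ih =>
    have h1 : (0 : ℝ) < 2 * j + 1 := by positivity
    have h2 : (0 : ℝ) < 2 * j + 2 := by positivity
    calc 1 / (2 * ((j + 1 : ℕ) : ℝ) + 1) ≤ 1 / (2 * j + 2) := by
          apply one_div_le_one_div_of_le h2
          push_cast
          linarith
      _ = (2 * j + 1) / (2 * j + 2) * (1 / (2 * j + 1)) := by field_simp
      _ ≤ (2 * j + 1) / (2 * j + 2) * e13_kk j :=
          mul_le_mul_of_nonneg_left ih (by positivity)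
      _ = e13_kk (j + 1) := rfl

theorem e13_kk_eq (c : ℝ) (j : ℕ) :
    ∫ x in (0 : ℝ)..1, e13_mn c 0 (2 * j) x = (e13_kk j : ℂ) := by
  induction j with
  | zero => simp [e13_mn, e13_kk]
  | succ j ih =>
    have hd : ∀ x ∈ Set.uIcc (0 : ℝ) 1, HasDerivAt (fun x : ℝ => e13_mn c 1 (2 * j + 1) x)
        (e13_d1 c 1 (2 * j + 1) x) x := fun x _ => (e13_mn_deriv c 1 (2 * j + 1) (x : ℂ)).comp_ofReal
    have hc : Continuous fun x : ℝ => e13_d1 c 1 (2 * j + 1) (x : ℂ) :=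
      (e13_cont_d1 _ _ _).comp Complex.continuous_ofReal
    have h0 := intervalIntegral.integral_eq_sub_of_hasDerivAt hd (hc.intervalIntegrable 0 1)
    have e1 := e13_per (c := c) (p := 1) (q := 2 * j + 1) ⟨j + 1, by ring⟩ 0
    rw [zero_add] at e1
    push_cast at h0
    rw [e1, sub_self] at h0
    have e2 : ∀ x : ℝ, e13_d1 c 1 (2 * j + 1) (x : ℂ)
        = π * ((2 * j + 2) * e13_mn c 0 (2 * (j + 1)) x - (2 * j + 1) * e13_mn c 0 (2 * j) x) := by
      intro x
      unfold e13_d1 e13_mn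
      have hsc := Complex.sin_sq_add_cos_sq ((π : ℂ) * ((x : ℂ) - c))
      have e3 : 2 * j + 1 - 1 = 2 * j := by omega
      rw [e3]
      push_cast
      linear_combination (-(π : ℂ) * (2 * j + 1) * Complex.cos (π * (x - c)) ^ (2 * j)) * hsc
    simp only [e2] at h0
    have i1 : IntervalIntegrable (fun x : ℝ => (2 * (j : ℂ) + 2) * e13_mn c 0 (2 * (j + 1)) x) volume 0 1 :=
      (continuous_const.mul ((e13_cont_mn _ _ _).comp Complex.continuous_ofReal)).intervalIntegrable 0 1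
    have i2 : IntervalIntegrable (fun x : ℝ => (2 * (j : ℂ) + 1) * e13_mn c 0 (2 * j) x) volume 0 1 :=
      (continuous_const.mul ((e13_cont_mn _ _ _).comp Complex.continuous_ofReal)).intervalIntegrable 0 1
    rw [intervalIntegral.integral_const_mul, intervalIntegral.integral_sub i1 i2,
      intervalIntegral.integral_const_mul, intervalIntegral.integral_const_mul, ih] at h0
    have hpi : (π : ℂ) ≠ 0 := by exact_mod_cast Real.pi_ne_zero
    have h3 := (mul_eq_zero.1 h0).resolve_left hpi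
    have h4 : (2 * (j : ℂ) + 2) ≠ 0 := by
      have : (2 * (j : ℝ) + 2) ≠ 0 := by positivity
      exact_mod_cast this
    have h5 : ∫ x in (0 : ℝ)..1, e13_mn c 0 (2 * (j + 1)) (x : ℂ)
        = (2 * j + 1) / (2 * j + 2) * e13_kk j := by
      field_simp
      linear_combination h3
    rw [h5]
    simp only [e13_kk]
    push_cast
    rfl

/-- the value of one block -/
theorem e13_G (c : ℝ) (N : ℕ) :
    e13_I (e13_mn c 0 (2 * N + 6)) (e13_mn c 3 (2 * N + 3))
      - 3 * e13_I (e13_mn c 1 (2 * N + 5)) (e13_mn c 2 (2 * N + 4))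
      = -3 * π ^ 3 * e13_kk (2 * N + 3) := by
  set n : ℂ := 2 * N + 6 with hn
  -- the primitive
  set T : ℂ → ℂ := fun z => -3 * e13_mn c 1 (4 * N + 11) z + (3 * n - 6) * e13_mn c 3 (4 * N + 9) z
    - (n ^ 2 - 3 * n + 3) * e13_mn c 5 (4 * N + 7) z with hT
  set T' : ℂ → ℂ := fun z => -3 * e13_d1 c 1 (4 * N + 11) z + (3 * n - 6) * e13_d1 c 3 (4 * N + 9) z
    - (n ^ 2 - 3 * n + 3) * e13_d1 c 5 (4 * N + 7) z with hT'
  have hTd : ∀ x ∈ Set.uIcc (0 : ℝ) 1, HasDerivAt (fun x : ℝ => T x) (T' x) x := by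
    intro x _
    have h1 := ((((e13_mn_deriv c 1 (4 * N + 11) (x : ℂ)).const_mul (-3)).add
      ((e13_mn_deriv c 3 (4 * N + 9) (x : ℂ)).const_mul (3 * n - 6))).sub
      ((e13_mn_deriv c 5 (4 * N + 7) (x : ℂ)).const_mul (n ^ 2 - 3 * n + 3)))
    exact HasDerivAt.comp_ofReal (e := T) h1
  have hTc : Continuous fun x : ℝ => T' x := by
    have : Continuous T' := ((continuous_const.mul (e13_cont_d1 _ _ _)).add
      (continuous_const.mul (e13_cont_d1 _ _ _))).sub (continuous_const.mul (e13_cont_d1 _ _ _))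
    exact this.comp Complex.continuous_ofReal
  have hT0 : ∫ x in (0 : ℝ)..1, T' x = 0 := by
    rw [intervalIntegral.integral_eq_sub_of_hasDerivAt hTd (hTc.intervalIntegrable 0 1)]
    have p1 := e13_per (c := c) (p := 1) (q := 4 * N + 11) ⟨2 * N + 6, by ring⟩ 0
    have p2 := e13_per (c := c) (p := 3) (q := 4 * N + 9) ⟨2 * N + 6, by ring⟩ 0
    have p3 := e13_per (c := c) (p := 5) (q := 4 * N + 7) ⟨2 * N + 6, by ring⟩ 0
    rw [zero_add] at p1 p2 p3
    simp only [hT]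
    push_cast
    rw [p1, p2, p3, sub_self]
  have key : ∀ x : ℝ, e13_d1 c 0 (2 * N + 6) x * e13_d2 c 3 (2 * N + 3) x
      - 3 * (e13_d1 c 1 (2 * N + 5) x * e13_d2 c 2 (2 * N + 4) x)
      = π ^ 2 * T' x - 3 * π ^ 3 * e13_mn c 0 (2 * (2 * N + 3)) x := by
    intro x
    have hsc := Complex.sin_sq_add_cos_sq ((π : ℂ) * ((x : ℂ) - c))
    simp only [hT', e13_d1, e13_d2, e13_mn, hn]
    set s := Complex.sin (π * ((x : ℂ) - c)) with hs
    set C := Complex.cos (π * ((x : ℂ) - c)) with hC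
    simp only [Nat.add_sub_cancel, show 3 - 1 = 2 from rfl, show 2 - 1 = 1 from rfl,
      show 1 - 1 = 0 from rfl, show 5 - 1 = 4 from rfl,
      show 2 * N + 6 - 1 = 2 * N + 5 by omega, show 2 * N + 3 - 1 = 2 * N + 2 by omega,
      show 2 * N + 5 - 1 = 2 * N + 4 by omega, show 2 * N + 4 - 1 = 2 * N + 3 by omega,
      show 2 * N + 2 - 1 = 2 * N + 1 by omega, show 4 * N + 11 - 1 = 4 * N + 10 by omega,
      show 4 * N + 9 - 1 = 4 * N + 8 by omega, show 4 * N + 7 - 1 = 4 * N + 6 by omega]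
    push_cast
    linear_combination (-3 * (π : ℂ) ^ 3 * C ^ (4 * N + 6) * ((s ^ 2 + C ^ 2) ^ 2 + (s ^ 2 + C ^ 2) + 1)) * hsc
  rw [e13_I_eq, e13_I_eq]
  have c1 : Continuous fun x : ℝ => e13_d1 c 0 (2 * N + 6) x * e13_d2 c 3 (2 * N + 3) x :=
    ((e13_cont_d1 _ _ _).comp Complex.continuous_ofReal).mul
      ((e13_cont_d2 _ _ _).comp Complex.continuous_ofReal)
  have c2 : Continuous fun x : ℝ => 3 * (e13_d1 c 1 (2 * N + 5) x * e13_d2 c 2 (2 * N + 4) x) :=
    continuous_const.mul (((e13_cont_d1 _ _ _).comp Complex.continuous_ofReal).mul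
      ((e13_cont_d2 _ _ _).comp Complex.continuous_ofReal))
  rw [← intervalIntegral.integral_const_mul, ← intervalIntegral.integral_sub
    (c1.intervalIntegrable 0 1) (c2.intervalIntegrable 0 1)]
  simp only [key]
  have c3 : Continuous fun x : ℝ => (π : ℂ) ^ 2 * T' x := continuous_const.mul hTc
  have c4 : Continuous fun x : ℝ => 3 * (π : ℂ) ^ 3 * e13_mn c 0 (2 * (2 * N + 3)) x :=
    continuous_const.mul ((e13_cont_mn _ _ _).comp Complex.continuous_ofReal)
  rw [intervalIntegral.integral_sub (c3.intervalIntegrable 0 1) (c4.intervalIntegrable 0 1),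
    intervalIntegral.integral_const_mul, intervalIntegral.integral_const_mul, hT0, e13_kk_eq]
  ring

/-- the brackets inside a block -/
theorem e13_brk_block (c : ℝ) (N : ℕ) :
    brk (e13_mn c 0 (2 * N + 6)) (e13_mn c 3 (2 * N + 3))
      = fun z => 3 * brk (e13_mn c 1 (2 * N + 5)) (e13_mn c 2 (2 * N + 4)) z := by
  funext z
  unfold brk
  rw [e13_deriv, e13_deriv, e13_deriv, e13_deriv]
  simp only [e13_d1, e13_mn]
  set s := Complex.sin (π * (z - c)) with hs
  set C := Complex.cos (π * (z - c)) with hC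
  simp only [show 3 - 1 = 2 from rfl, show 2 - 1 = 1 from rfl,
      show 1 - 1 = 0 from rfl,
      show 2 * N + 6 - 1 = 2 * N + 5 by omega, show 2 * N + 3 - 1 = 2 * N + 2 by omega,
      show 2 * N + 5 - 1 = 2 * N + 4 by omega, show 2 * N + 4 - 1 = 2 * N + 3 by omega]
  push_cast
  ring

end

end Pool.Agent.Helper67.DO
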