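import Pool.Agent.Helper67.DO.StmtsE1

set_option autoImplicit false

/-!
# Module E13 of MP_d07457_gt: permutations and pairs
-/

namespace Pool.Agent.Helper67.DO

open scoped BigOperators Real

noncomputable section

/-- `(i,b) ↦ 2i+b` -/
def e13_e (k : ℕ) : Fin (k + 1) × Fin 2 ≃ Fin (2 * (k + 1)) where
  toFun x := ⟨2 * x.1 + x.2, by omega⟩
  invFun a := (⟨a / 2, by omega⟩, ⟨a % 2, by omega⟩)
  left_inv := by
    rintro ⟨i, b⟩
    refine Prod.ext (Fin.ext ?_) (Fin.ext ?_)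
    · change (2 * (i : ℕ) + b) / 2 = i
      omega
    · change (2 * (i : ℕ) + b) % 2 = b
      omega
  right_inv a := by
    refine Fin.ext ?_
    change 2 * ((a : ℕ) / 2) + a % 2 = a
    omega

theorem e13_perm2 (φ : Equiv.Perm (Fin 2)) :
    Equiv.Perm.sign φ = if φ 0 = 0 then 1 else -1 := by
  revert φ
  decide

/-- a permutation preserving the pairs -/
theorem e13_sign {k : ℕ} (σ : Equiv.Perm (Fin (k + 1) × Fin 2))
    (h : ∀ i, (σ (i, 0)).1 = (σ (i, 1)).1) :
    Function.Bijective (fun i => (σ (i, 0)).1) ∧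
      Equiv.Perm.sign σ = ∏ i, (if (σ (i, 0)).2 = 0 then (1 : ℤˣ) else -1) := by
  have h' : ∀ i b, (σ (i, b)).1 = (σ (i, 0)).1 := by
    intro i b
    fin_cases b
    · rfl
    · exact (h i).symm
  have hsurj : Function.Surjective (fun i => (σ (i, 0)).1) := by
    intro j
    obtain ⟨⟨i, b⟩, hib⟩ := σ.surjective (j, 0)
    refine ⟨i, ?_⟩
    change (σ (i, 0)).1 = j
    rw [← h' i b, hib]
  have hbij : Function.Bijective (fun i => (σ (i, 0)).1) :=
    ⟨Finite.injective_iff_surjective.2 hsurj, hsurj⟩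
  refine ⟨hbij, ?_⟩
  set pi : Equiv.Perm (Fin (k + 1)) := Equiv.ofBijective _ hbij with hpi
  have hphi : ∀ i, Function.Bijective (fun b => (σ (i, b)).2) := by
    intro i
    have hinj : Function.Injective (fun b => (σ (i, b)).2) := by
      intro b b' hbb
      have h1 : σ (i, b) = σ (i, b') := Prod.ext ((h' i b).trans (h' i b').symm) hbb
      have h2 := σ.injective h1
      exact (Prod.ext_iff.1 h2).2
    exact ⟨hinj, Finite.injective_iff_surjective.1 hinj⟩
  set phi : Fin (k + 1) → Equiv.Perm (Fin 2) := fun i => Equiv.ofBijective _ (hphi i) with hph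
  have hσ : σ = (Equiv.prodCongrLeft fun _ : Fin 2 => pi) * Equiv.prodCongrRight phi := by
    refine Equiv.ext ?_
    rintro ⟨i, b⟩
    rw [Equiv.Perm.mul_apply]
    refine Prod.ext ?_ ?_
    · exact h' i b
    · rfl
  rw [hσ, Equiv.Perm.sign_mul, Equiv.Perm.sign_prodCongrLeft, Equiv.Perm.sign_prodCongrRight]
  have e1 : ∏ _k : Fin 2, Equiv.Perm.sign pi = 1 := by
    rw [Fin.prod_univ_two, ← sq, Int.units_sq]
  rw [e1, one_mul, ← hσ]
  refine Finset.prod_congr rfl fun i _ => ?_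
  rw [e13_perm2]
  rfl

/-- the sum over the types for a permutation preserving the pairs -/
theorem e13_good {k : ℕ} (σ : Equiv.Perm (Fin (k + 1) × Fin 2))
    (h : ∀ i, (σ (i, 0)).1 = (σ (i, 1)).1) (J : Fin (k + 1) → Bool → ℂ) (w : Bool → ℂ)
    (A : (Fin (k + 1) → Bool) → Fin (k + 1) × Fin 2 → Fin (k + 1) × Fin 2 → ℂ)
    (hA : ∀ τ j, A τ (j, 0) (j, 1) = J j (τ j)) (hA' : ∀ τ j, A τ (j, 1) (j, 0) = -J j (τ j)) :
    ∑ τ : Fin (k + 1) → Bool, (∏ j, w (τ j)) *
      (((Equiv.Perm.sign σ : ℤ) : ℂ) * ∏ i, A τ (σ (i, 0)) (σ (i, 1)))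
      = ∏ j, (w false * J j false + w true * J j true) := by
  obtain ⟨hbij, hsgn⟩ := e13_sign σ h
  have hfac : ∀ τ : Fin (k + 1) → Bool, ∀ i, A τ (σ (i, 0)) (σ (i, 1))
      = (((if (σ (i, 0)).2 = 0 then (1 : ℤˣ) else -1 : ℤˣ) : ℤ) : ℂ) *
        J (σ (i, 0)).1 (τ (σ (i, 0)).1) := by
    intro τ i
    have hne : (σ (i, 0)).2 ≠ (σ (i, 1)).2 := by
      intro h2
      have h1 : σ (i, 0) = σ (i, 1) := Prod.ext (h i) h2
      have h3 := σ.injective h1
      have h4 : (0 : Fin 2) = 1 := (Prod.ext_iff.1 h3).2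
      exact absurd h4 (by decide)
    have e0 : σ (i, 0) = ((σ (i, 0)).1, (σ (i, 0)).2) := rfl
    have e1 : σ (i, 1) = ((σ (i, 0)).1, (σ (i, 1)).2) := Prod.ext (h i).symm rfl
    rw [e1, show A τ (σ (i, 0)) = A τ ((σ (i, 0)).1, (σ (i, 0)).2) from rfl]
    generalize (σ (i, 0)).1 = j at *
    generalize (σ (i, 0)).2 = a at *
    generalize (σ (i, 1)).2 = b at *
    rcases (by omega : a = 0 ∨ a = 1) with rfl | rfl
    · have hb : b = 1 := by omega
      subst hb
      simp [hA]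
    · have hb : b = 0 := by omega
      subst hb
      simp [hA']
  have hterm : ∀ τ : Fin (k + 1) → Bool, (∏ j, w (τ j)) *
      (((Equiv.Perm.sign σ : ℤ) : ℂ) * ∏ i, A τ (σ (i, 0)) (σ (i, 1)))
      = ∏ j, (w (τ j) * J j (τ j)) := by
    intro τ
    have e1 : ∏ i, A τ (σ (i, 0)) (σ (i, 1)) = ((Equiv.Perm.sign σ : ℤ) : ℂ) * ∏ j, J j (τ j) := by
      have e2 : ∏ j, J j (τ j) = ∏ i, J (σ (i, 0)).1 (τ (σ (i, 0)).1) :=
        (hbij.prod_comp fun j => J j (τ j)).symm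
      rw [e2, hsgn]
      push_cast
      rw [← Finset.prod_mul_distrib]
      refine Finset.prod_congr rfl fun i _ => ?_
      rw [hfac τ i]
    have e3 : ((Equiv.Perm.sign σ : ℤ) : ℂ) * ((Equiv.Perm.sign σ : ℤ) : ℂ) = 1 := by
      rcases Int.units_eq_one_or (Equiv.Perm.sign σ) with h | h <;> rw [h] <;> simp
    rw [e1, ← mul_assoc ((Equiv.Perm.sign σ : ℤ) : ℂ), e3, one_mul, Finset.prod_mul_distrib]
  rw [Finset.sum_congr rfl fun τ _ => hterm τ]
  have e4 : ∀ j, w false * J j false + w true * J j true = ∑ b : Bool, w b * J j b := by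
    intro j
    rw [Fintype.sum_bool, add_comm]
  simp only [e4]
  rw [Finset.prod_univ_sum]
  rw [Fintype.piFinset_univ]

end

end Pool.Agent.Helper67.DO
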