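import Pool.Agent.Helper75.DO.E13A
import Pool.Agent.Helper75.DO.E13B
import Pool.Agent.Helper67.DO.BaseE

set_option autoImplicit false

/-!
# Module E13 of MP_d07457_gt: `GV_{k+1}` is not exact on thin strips
-/

namespace Pool.Agent.Helper67.DO

open scoped BigOperators Real
open MeasureTheory

noncomputable section

/-! ### wedges -/

theorem e13_WW_norm {q : ℕ} {v : Fin q → ℂ → ℂ} {z : Fin q → ℂ} {R : Fin q → ℝ}
    (h : ∀ i j, ‖v i (z j)‖ ≤ R i) : ‖WW v z‖ ≤ (q.factorial : ℝ) * ∏ i, R i := by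
  unfold WW
  rw [Matrix.det_apply']
  calc ‖∑ σ : Equiv.Perm (Fin q), ((Equiv.Perm.sign σ : ℤ) : ℂ) * ∏ i, Matrix.of (fun i j => v i (z j)) (σ i) i‖
      ≤ ∑ σ : Equiv.Perm (Fin q), ‖((Equiv.Perm.sign σ : ℤ) : ℂ) * ∏ i, Matrix.of (fun i j => v i (z j)) (σ i) i‖ :=
        norm_sum_le _ _
    _ ≤ ∑ _σ : Equiv.Perm (Fin q), ∏ i, R i := by
        refine Finset.sum_le_sum fun σ _ => ?_
        rw [norm_mul, norm_prod]
        have h1 : ‖((Equiv.Perm.sign σ : ℤ) : ℂ)‖ = 1 := by
          rcases Int.units_eq_one_or (Equiv.Perm.sign σ) with h | h <;> rw [h] <;> simp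
        rw [h1, one_mul, ← Equiv.prod_comp σ R]
        exact Finset.prod_le_prod (fun _ _ => norm_nonneg _) fun i _ => h (σ i) i
    _ = (q.factorial : ℝ) * ∏ i, R i := by
        rw [Finset.sum_const, nsmul_eq_mul, Finset.card_univ, Fintype.card_perm, Fintype.card_fin]

theorem e13_WW_smul {q : ℕ} (v : Fin q → ℂ → ℂ) (i : Fin q) (c : ℂ) (g : ℂ → ℂ) (z : Fin q → ℂ) :
    WW (Function.update v i (fun x => c * g x)) z = c * WW (Function.update v i g) z := by
  unfold WW
  have e1 : ∀ f : ℂ → ℂ, Matrix.of (fun a j => Function.update v i f a (z j))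
      = (Matrix.of fun a j => v a (z j)).updateRow i fun j => f (z j) := by
    intro f
    ext a j
    by_cases ha : a = i
    · subst ha
      simp
    · simp [ha]
  rw [e1, e1]
  have e2 : (fun j => c * g (z j)) = c • fun j => g (z j) := rfl
  rw [e2, Matrix.det_updateRow_smul]

theorem e13_dd_sum {ι : Type*} {q : ℕ} (S : Finset ι) (c : ι → ℂ) (G : ι → (Fin (q + 1) → ℂ) → ℂ)
    (hG : ∀ i, DifferentiableOn ℂ (G i) (PU (q + 1) Set.univ)) (z : Fin q → ℂ) :
    dd q (fun x => ∑ i ∈ S, c i * G i x) z = ∑ i ∈ S, c i * dd q (G i) z := by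
  classical
  induction S using Finset.induction_on with
  | empty =>
    simp only [Finset.sum_empty]
    unfold dd
    simp
  | insert a S ha ih =>
    have e : (fun x => ∑ i ∈ insert a S, c i * G i x) = fun x => c a * G a x + ∑ i ∈ S, c i * G i x := by
      funext x
      rw [Finset.sum_insert ha]
    have hS : DifferentiableOn ℂ (fun x => ∑ i ∈ S, c i * G i x) (PU (q + 1) Set.univ) :=
      DifferentiableOn.fun_sum fun i _ => (hG i).const_mul (c i)
    rw [e, dd_lin isOpen_univ (hG a) hS (c a) (fun _ => Set.mem_univ _), ih, Finset.sum_insert ha]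

/-! ### the test functions -/

/-- the exponent of the sine -/
def e13_ty (b : Fin 2) (t : Bool) : ℕ := if b = 0 then (if t then 1 else 0) else (if t then 2 else 3)

theorem e13_ty_le (b : Fin 2) (t : Bool) : e13_ty b t ≤ 3 := by
  unfold e13_ty
  split_ifs <;> omega

/-- the centres -/
def e13_c (k : ℕ) (i : Fin (k + 1)) : ℝ := (i : ℝ) / (k + 1)

/-- coefficients -/
def e13_w (t : Bool) : ℂ := if t then -3 else 1

def e13_v (k N : ℕ) (τ : Fin (k + 1) → Bool) (x : Fin (k + 1) × Fin 2) : ℂ → ℂ :=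
  e13_mn (e13_c k x.1) (e13_ty x.2 (τ x.1)) (2 * N + 6 - e13_ty x.2 (τ x.1))

def e13_vv (k N : ℕ) (τ : Fin (k + 1) → Bool) (a : Fin (2 * (k + 1))) : ℂ → ℂ :=
  e13_v k N τ ((e13_e k).symm a)

/-- the test function -/
def e13_F (k N : ℕ) (z : Fin (2 * (k + 1)) → ℂ) : ℂ :=
  ∑ τ : Fin (k + 1) → Bool, (∏ j, e13_w (τ j)) * WW (e13_vv k N τ) z

theorem e13_exp (N : ℕ) (b : Fin 2) (t : Bool) : e13_ty b t + (2 * N + 6 - e13_ty b t) = 2 * N + 6 := by
  have := e13_ty_le b t
  omega

theorem e13_vv_diff (k N : ℕ) (τ : Fin (k + 1) → Bool) (a : Fin (2 * (k + 1))) :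
    Differentiable ℂ (e13_vv k N τ a) := e13_diff _ _ _

theorem e13_vv_per (k N : ℕ) (τ : Fin (k + 1) → Bool) (a : Fin (2 * (k + 1))) (z : ℂ) :
    e13_vv k N τ a (z + 1) = e13_vv k N τ a z := by
  unfold e13_vv e13_v
  refine e13_per ?_ z
  rw [e13_exp]
  exact ⟨N + 3, by ring⟩

theorem e13_vv_le (k N : ℕ) (τ : Fin (k + 1) → Bool) (a : Fin (2 * (k + 1))) {s : ℝ} {z : ℂ}
    (hz : |z.im| ≤ s) : ‖e13_vv k N τ a z‖ ≤ Real.cosh (π * s) ^ (2 * N + 6) := by
  have h := e13_mn_le (c := e13_c k ((e13_e k).symm a).1) (n := 2 * N + 6) (L := 0)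
    (e13_exp N ((e13_e k).symm a).2 (τ ((e13_e k).symm a).1)) (Nat.zero_le _)
    (e13_sin_St hz) (e13_cos_St hz)
  rw [pow_zero, one_mul, Nat.sub_zero] at h
  exact h

theorem e13_F_BO (k N : ℕ) (s : ℝ) : BO (2 * (k + 1)) (St s) (e13_F k N) := by
  refine BO.sum _ _ fun τ _ => BO.smul _ (WW_BO (R := Real.cosh (π * s) ^ (2 * N + 6))
    (fun i => (e13_vv_diff k N τ i).differentiableOn) (fun i z _ => e13_vv_per k N τ i z) ?_)
  intro i z hz
  exact e13_vv_le k N τ i (le_of_lt hz)

/-! ### the differential of the test function -/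

/-- flipping the type of one block -/
def e13_flip {k : ℕ} (i : Fin (k + 1)) (τ : Fin (k + 1) → Bool) : Fin (k + 1) → Bool :=
  Function.update τ i (!τ i)

theorem e13_flip_flip {k : ℕ} (i : Fin (k + 1)) (τ : Fin (k + 1) → Bool) :
    e13_flip i (e13_flip i τ) = τ := by
  unfold e13_flip
  simp

theorem e13_prod_w {k : ℕ} (i : Fin (k + 1)) (τ : Fin (k + 1) → Bool) :
    ∏ j, e13_w (τ j) = e13_w (τ i) * ∏ j ∈ Finset.univ.erase i, e13_w (τ j) :=
  (Finset.mul_prod_erase Finset.univ _ (Finset.mem_univ i)).symm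

theorem e13_prod_flip {k : ℕ} (i : Fin (k + 1)) (τ : Fin (k + 1) → Bool) :
    ∏ j, e13_w (e13_flip i τ j) = e13_w (!τ i) * ∏ j ∈ Finset.univ.erase i, e13_w (τ j) := by
  rw [e13_prod_w i]
  congr 1
  · unfold e13_flip
    simp
  · refine Finset.prod_congr rfl fun j hj => ?_
    unfold e13_flip
    rw [Function.update_of_ne (Finset.ne_of_mem_erase hj)]

theorem e13_v_flip {k N : ℕ} (i : Fin (k + 1)) (τ : Fin (k + 1) → Bool) {x : Fin (k + 1) × Fin 2}
    (hx : x.1 ≠ i) : e13_v k N (e13_flip i τ) x = e13_v k N τ x := by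
  unfold e13_v e13_flip
  rw [Function.update_of_ne hx]

/-- the bracket inside a block -/
theorem e13_brk_vv {k N : ℕ} (i : Fin (k + 1)) (τ : Fin (k + 1) → Bool) :
    brk (e13_v k N τ (i, 0)) (e13_v k N τ (i, 1))
      = fun z => (if τ i then 1 else 3) * brk (e13_mn (e13_c k i) 1 (2 * N + 5)) (e13_mn (e13_c k i) 2 (2 * N + 4)) z := by
  unfold e13_v e13_ty
  cases h : τ i
  · simpa using e13_brk_block (e13_c k i) N
  · simp

/-- terms of `∂F` coming from one block cancel -/
theorem e13_cancel {k N : ℕ} {q : ℕ} (hq : 2 * (k + 1) = q + 1) {a b : Fin (2 * (k + 1))} (hab : a < b)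
    (hblk : ((e13_e k).symm a).1 = ((e13_e k).symm b).1) (z : Fin q → ℂ) (sg : ℂ)
    (rem : (Fin (2 * (k + 1)) → ℂ → ℂ) → Fin q → ℂ → ℂ)
    (hrem : ∀ v, rem v = fun j => v (Fin.cast hq.symm ((Fin.cast hq b).succAbove j))) :
    ∑ τ : Fin (k + 1) → Bool, (∏ j, e13_w (τ j)) *
      (sg * WW (rem (Function.update (e13_vv k N τ) a (brk (e13_vv k N τ a) (e13_vv k N τ b)))) z) = 0 := by
  set i := ((e13_e k).symm a).1 with hi
  have hab' : (a : ℕ) < b := hab
  have ha1 : (a : ℕ) / 2 = i := rfl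
  have hb1 : (b : ℕ) / 2 = i := (congrArg Fin.val hblk).symm
  have ha : (e13_e k).symm a = (i, 0) := by
    refine Prod.ext rfl (Fin.ext ?_)
    change (a : ℕ) % 2 = 0
    omega
  have hb : (e13_e k).symm b = (i, 1) := by
    refine Prod.ext hblk.symm (Fin.ext ?_)
    change (b : ℕ) % 2 = 1
    omega
  set B := brk (e13_mn (e13_c k i) 1 (2 * N + 5)) (e13_mn (e13_c k i) 2 (2 * N + 4)) with hB
  -- the slot of `a` after removing `b`
  obtain ⟨a', ha'⟩ : ∃ a' : Fin q, (Fin.cast hq b).succAbove a' = Fin.cast hq a := by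
    refine Fin.exists_succAbove_eq ?_
    intro h
    have := congrArg Fin.val h
    simp at this
    omega
  set V : (Fin (k + 1) → Bool) → Fin q → ℂ → ℂ := fun τ => rem (e13_vv k N τ) with hV
  have hcast : ∀ x : Fin (2 * (k + 1)), Fin.cast hq.symm (Fin.cast hq x) = x := fun x => rfl
  have hupd : ∀ (τ : Fin (k + 1) → Bool) (g : ℂ → ℂ),
      rem (Function.update (e13_vv k N τ) a g) = Function.update (V τ) a' g := by
    intro τ g
    funext j
    rw [hrem]
    by_cases hj : j = a'
    · subst hj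
      rw [Function.update_self]
      simp only [ha', hcast, Function.update_self]
    · rw [Function.update_of_ne hj]
      simp only [hV, hrem]
      rw [Function.update_of_ne]
      intro h
      apply hj
      have h2 : (Fin.cast hq b).succAbove j = Fin.cast hq a := congrArg (Fin.cast hq) h
      rw [← ha'] at h2
      exact Fin.succAbove_right_injective h2
  have hVflip : ∀ (τ : Fin (k + 1) → Bool) (g : ℂ → ℂ),
      Function.update (V (e13_flip i τ)) a' g = Function.update (V τ) a' g := by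
    intro τ g
    funext j
    by_cases hj : j = a'
    · subst hj
      simp
    · rw [Function.update_of_ne hj, Function.update_of_ne hj]
      simp only [hV, hrem]
      refine e13_v_flip i τ ?_
      intro h
      set x : Fin (2 * (k + 1)) := Fin.cast hq.symm ((Fin.cast hq b).succAbove j) with hx
      have hx1 : (x : ℕ) / 2 = i := congrArg Fin.val h
      have hxb : x ≠ b := by
        intro hxb
        have h3 : (Fin.cast hq b).succAbove j = Fin.cast hq b := congrArg (Fin.cast hq) hxb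
        exact Fin.succAbove_ne _ _ h3
      have hxa : x ≠ a := by
        intro hxa
        apply hj
        have h3 : (Fin.cast hq b).succAbove j = Fin.cast hq a := congrArg (Fin.cast hq) hxa
        rw [← ha'] at h3
        exact Fin.succAbove_right_injective h3
      have hxb' : (x : ℕ) ≠ b := fun h => hxb (Fin.ext h)
      have hxa' : (x : ℕ) ≠ a := fun h => hxa (Fin.ext h)
      omega
  have hval : ∀ τ : Fin (k + 1) → Bool, (∏ j, e13_w (τ j)) *
      (sg * WW (rem (Function.update (e13_vv k N τ) a (brk (e13_vv k N τ a) (e13_vv k N τ b)))) z)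
      = (e13_w (τ i) * (if τ i then 1 else 3)) * ((∏ j ∈ Finset.univ.erase i, e13_w (τ j)) *
        (sg * WW (Function.update (V τ) a' B) z)) := by
    intro τ
    have e1 : brk (e13_vv k N τ a) (e13_vv k N τ b) = fun z => (if τ i then 1 else 3) * B z := by
      unfold e13_vv
      rw [ha, hb]
      exact e13_brk_vv i τ
    rw [hupd, e1, e13_WW_smul, e13_prod_w i]
    ring
  refine Finset.sum_involution (fun τ _ => e13_flip i τ) ?_ ?_ ?_ ?_
  · intro τ _
    rw [hval, hval, hVflip]
    have e1 : e13_flip i τ i = !τ i := by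
      unfold e13_flip
      simp
    have e2 : ∏ j ∈ Finset.univ.erase i, e13_w (e13_flip i τ j) = ∏ j ∈ Finset.univ.erase i, e13_w (τ j) := by
      refine Finset.prod_congr rfl fun j hj => ?_
      unfold e13_flip
      rw [Function.update_of_ne (Finset.ne_of_mem_erase hj)]
    rw [e1, e2]
    cases τ i <;> simp [e13_w]
  · intro τ _ _ h
    have := congrFun h i
    unfold e13_flip at this
    simp at this
  · intro τ _
    exact Finset.mem_univ _
  · intro τ _
    exact e13_flip_flip i τ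

end

end Pool.Agent.Helper67.DO
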